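import Mathlib

set_option autoImplicit false

/-!
# A continuous map with fewer than continuum many values is somewhere locally constant
-/

namespace Pool.Agent.MP349281

open Set Cardinal

theorem exists_const_clopen {K : Type*} {Y : Type*} [TopologicalSpace K] [CompactSpace K]
    [TopologicalSpace Y] [TotallySeparatedSpace Y] (F : K → Y) (hF : Continuous F)
    (hcard : Cardinal.mk (Set.range F) < Cardinal.continuum) (C : Set K) (hC : IsClopen C)
    (hne : C.Nonempty) :
    ∃ D ⊆ C, IsClopen D ∧ D.Nonempty ∧ ∃ y, ∀ x ∈ D, F x = y := by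
  by_contra hcon
  push Not at hcon
  let S := {D : Set K // D ⊆ C ∧ IsClopen D ∧ D.Nonempty}
  have hsplit : ∀ D : S, ∃ V : Set Y, IsClopen V ∧ (D.1 ∩ F ⁻¹' V).Nonempty ∧
      (D.1 ∩ (F ⁻¹' V)ᶜ).Nonempty := by
    rintro ⟨D, hDC, hD, a, ha⟩
    obtain ⟨b, hb, hab⟩ := hcon D hDC hD ⟨a, ha⟩ (F a)
    obtain ⟨V, hV, h1, h2⟩ := exists_isClopen_of_totally_separated hab
    exact ⟨V, hV, ⟨b, hb, h1⟩, ⟨a, ha, h2⟩⟩
  choose V hV hV1 hV2 using hsplit
  let next : S → Bool → S := fun D b =>
    if b = true then ⟨D.1 ∩ F ⁻¹' (V D), inter_subset_left.trans D.2.1,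
      D.2.2.1.inter ((hV D).preimage hF), hV1 D⟩
    else ⟨D.1 ∩ (F ⁻¹' (V D))ᶜ, inter_subset_left.trans D.2.1,
      D.2.2.1.inter ((hV D).preimage hF).compl, hV2 D⟩
  have hnext_sub : ∀ D b, (next D b).1 ⊆ D.1 := by
    intro D b
    by_cases hb : b = true
    · simp only [next, hb, if_true]; exact inter_subset_left
    · simp only [next, hb]; exact inter_subset_left
  let seq : (ℕ → Bool) → ℕ → S := fun x n =>
    Nat.rec (⟨C, Subset.rfl, hC, hne⟩ : S) (fun n D => next D (x n)) n
  have hseq_succ : ∀ x n, seq x (n + 1) = next (seq x n) (x n) := fun x n => rfl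
  have hpt : ∀ x : ℕ → Bool, ∃ p : K, ∀ n, p ∈ (seq x n).1 := by
    intro x
    have := IsCompact.nonempty_iInter_of_sequence_nonempty_isCompact_isClosed
      (fun n => (seq x n).1) (fun n => by
        show (seq x (n + 1)).1 ⊆ (seq x n).1
        rw [hseq_succ]; exact hnext_sub _ _)
      (fun n => (seq x n).2.2.2) ((seq x 0).2.2.1.isClosed.isCompact)
      (fun n => (seq x n).2.2.1.isClosed)
    obtain ⟨p, hp⟩ := this
    exact ⟨p, fun n => mem_iInter.mp hp n⟩
  choose pt hpt using hpt
  have hinj : Function.Injective (fun x : ℕ → Bool => (⟨F (pt x), mem_range_self _⟩ : range F)) := by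
    intro x y hxy
    have hxy' : F (pt x) = F (pt y) := by simpa using congrArg Subtype.val hxy
    by_contra hne'
    have hex : ∃ n, x n ≠ y n := by
      by_contra hall
      push Not at hall
      exact hne' (funext hall)
    classical
    let n := Nat.find hex
    have hn : x n ≠ y n := Nat.find_spec hex
    have hlt : ∀ m < n, x m = y m := fun m hm => by
      have := Nat.find_min hex hm
      push Not at this
      exact this
    have heq : ∀ m ≤ n, seq x m = seq y m := by
      intro m
      induction m with
      | zero => intro _; rfl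
      | succ m IH =>
        intro hm
        rw [hseq_succ, hseq_succ, IH (by omega), hlt m (by omega)]
    have h1 := hpt x (n + 1)
    have h2 := hpt y (n + 1)
    rw [hseq_succ] at h1 h2
    rw [← heq n le_rfl] at h2
    rcases hxb : x n with _ | _
    · have hyb : y n = true := by
        rcases hyb : y n with _ | _
        · exact absurd (hxb.trans hyb.symm) hn
        · rfl
      rw [hxb] at h1
      rw [hyb] at h2
      simp only [next, Bool.false_eq_true, if_false, if_true] at h1 h2
      exact h1.2 (by rw [mem_preimage, hxy']; exact h2.2)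
    · have hyb : y n = false := by
        rcases hyb : y n with _ | _
        · rfl
        · exact absurd (hxb.trans hyb.symm) hn
      rw [hxb] at h1
      rw [hyb] at h2
      simp only [next, Bool.false_eq_true, if_false, if_true] at h1 h2
      exact h2.2 (by rw [mem_preimage, ← hxy']; exact h1.2)
  have h1 : Cardinal.lift.{_, 0} (Cardinal.mk (ℕ → Bool)) ≤ Cardinal.lift.{0, _} (Cardinal.mk (range F)) :=
    Cardinal.lift_mk_le_lift_mk_of_injective hinj
  have h2 : Cardinal.mk (ℕ → Bool) = Cardinal.continuum := by
    simp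
  rw [h2, Cardinal.lift_continuum, Cardinal.lift_id'] at h1
  exact absurd hcard (not_lt.mpr h1)

end Pool.Agent.MP349281
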