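import Pool.Agent.Lib.MP_349281_al.Mono

set_option autoImplicit false
set_option linter.unusedSectionVars false

/-!
# Conciseness: an abelian-by-nilpotent marginal subgroup of finite index
-/

namespace Pool.Agent.MP349281

open Subgroup
open scoped commutatorElement

/-- finitely generated abelian-by-nilpotent groups with a central monolith of order `q` -/
theorem mono_finite {P : Type*} [Group P] (hfg : Group.FG P) {c : ℕ}
    (hab : ∀ a ∈ (⊤ : Subgroup P).lowerCentralSeries c,
      ∀ b ∈ (⊤ : Subgroup P).lowerCentralSeries c, a * b = b * a)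
    {q : ℕ} (hq : q.Prime) {u : P} (hu1 : u ≠ 1) (huq : u ^ q = 1) (huc : u ∈ center P)
    (hmono : ∀ K : Subgroup P, K.Normal → K ≠ ⊥ → u ∈ K) : Finite P ∧ IsPGroup q P := by
  obtain ⟨S, hS⟩ := (Group.fg_def (G := P)).mp hfg
  obtain ⟨M, _, _, d, hinj, hd, hact⟩ :=
    exists_derivation ((⊤ : Subgroup P).lowerCentralSeries c) hab
  have hchain : Chain ((⊤ : Subgroup P).lowerCentralSeries c) ⊤ := exists_chain S hS le_rfl
  have hAn : ((⊤ : Subgroup P).lowerCentralSeries c).Normal := inferInstance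
  obtain ⟨s, hs⟩ := un_all hAn hab
    (fun K hK hKn hKA => acc_normal hAn S hS hchain d hinj hd hact K hK hKn hKA) hu1 huc hmono
    hchain
  have hnil : Group.IsNilpotent P := nilpotent_of_un hAn hab le_rfl hs
  have hord : orderOf u = q := by
    have h1 := orderOf_dvd_of_pow_eq_one huq
    rcases (Nat.dvd_prime hq).mp h1 with h | h
    · exact absurd (orderOf_eq_one_iff.mp h) hu1
    · exact h
  have hzn : ∀ z ∈ center P, z ≠ 1 → u ∈ zpowers z := by
    intro z hz hz1
    apply hmono
    · constructor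
      intro x hx g
      have hxc : x ∈ center P := (zpowers_le.mpr hz) hx
      have : g * x * g⁻¹ = x := by rw [mem_center_iff.mp hxc g]; group
      rw [this]; exact hx
    · intro h
      exact hz1 (zpowers_eq_bot.mp h)
  have hc : ∀ z ∈ center P, ∃ j, z ^ q ^ j = 1 := by
    intro z hz
    by_cases hz1 : z = 1
    · exact ⟨0, by rw [hz1]; simp⟩
    have hfin : IsOfFinOrder z := by
      obtain ⟨i, hi⟩ := mem_zpowers_iff.mp (hzn z hz hz1)
      have hi0 : i ≠ 0 := by
        rintro rfl
        exact hu1 (by rw [← hi, zpow_zero])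
      rw [isOfFinOrder_iff_zpow_eq_one]
      refine ⟨i * q, mul_ne_zero hi0 (by exact_mod_cast hq.ne_zero), ?_⟩
      rw [zpow_mul, hi, zpow_natCast, huq]
    have hn : orderOf z ≠ 0 := hfin.orderOf_pos.ne'
    have h1 : ∀ {p : ℕ}, p.Prime → p ∣ orderOf z → p = q := by
      intro p hp hpd
      have h2 : orderOf (z ^ (orderOf z / p)) = p := by
        rw [orderOf_pow_of_dvd (Nat.div_pos (Nat.le_of_dvd hfin.orderOf_pos hpd) hp.pos).ne'
          (Nat.div_dvd_of_dvd hpd), Nat.div_div_self hpd hn]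
      have h3 : z ^ (orderOf z / p) ≠ 1 := by
        intro h
        rw [h, orderOf_one] at h2
        exact hp.one_lt.ne h2
      have h4 := hzn _ (pow_mem hz _) h3
      have h5 : orderOf u ∣ orderOf (z ^ (orderOf z / p)) := orderOf_dvd_of_mem_zpowers h4
      rw [h2, hord] at h5
      exact ((Nat.prime_dvd_prime_iff_eq hq hp).mp h5).symm
    have h6 := Nat.eq_prime_pow_of_unique_prime_dvd hn h1
    exact ⟨_, by rw [← h6]; exact pow_orderOf_eq_one z⟩
  have htor := torsion_up q P hfg hc
  refine ⟨finite_of_torsion P hfg (fun x => ?_), fun x => htor x⟩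
  obtain ⟨j, hj⟩ := htor x
  exact isOfFinOrder_iff_pow_eq_one.mpr ⟨q ^ j, pow_pos hq.pos j, hj⟩

/-- central elements of infinite order survive in a finite `q`-quotient. -/
theorem exists_quotient {P : Type*} [Group P] (hfg : Group.FG P) {c : ℕ}
    (hab : ∀ a ∈ (⊤ : Subgroup P).lowerCentralSeries c,
      ∀ b ∈ (⊤ : Subgroup P).lowerCentralSeries c, a * b = b * a)
    {q : ℕ} (hq : q.Prime) {u : P} (huc : u ∈ center P) (hu : ¬ IsOfFinOrder u) :
    ∃ L : Subgroup P, ∃ _ : L.Normal, u ∉ L ∧ Finite (P ⧸ L) ∧ IsPGroup q (P ⧸ L) := by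
  obtain ⟨L, -, hL⟩ := zorn_le_nonempty₀ {L : Subgroup P | L.Normal ∧ u ^ q ∈ L ∧ u ∉ L} (by
    intro C hC hchain y hy
    have hdir : DirectedOn (· ≤ ·) C := hchain.directedOn
    refine ⟨sSup C, ⟨?_, ?_, ?_⟩, fun z hz => le_sSup hz⟩
    · constructor
      intro x hx g
      rw [mem_sSup_of_directedOn ⟨y, hy⟩ hdir] at hx ⊢
      obtain ⟨K, hK, hxK⟩ := hx
      exact ⟨K, hK, (hC hK).1.conj_mem x hxK g⟩
    · exact (le_sSup hy : y ≤ sSup C) (hC hy).2.1
    · intro hx
      rw [mem_sSup_of_directedOn ⟨y, hy⟩ hdir] at hx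
      obtain ⟨K, hK, hxK⟩ := hx
      exact (hC hK).2.2 hxK) (zpowers (u ^ q)) (by
    refine ⟨?_, mem_zpowers _, ?_⟩
    · constructor
      intro x hx g
      have hxc : x ∈ center P := (zpowers_le.mpr (pow_mem huc q)) hx
      have : g * x * g⁻¹ = x := by rw [mem_center_iff.mp hxc g]; group
      rw [this]; exact hx
    · intro h
      obtain ⟨i, hi⟩ := mem_zpowers_iff.mp h
      apply hu
      rw [isOfFinOrder_iff_zpow_eq_one]
      refine ⟨q * i - 1, ?_, ?_⟩
      · intro h0
        have h1 : (q : ℤ) * i = 1 := by linarith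
        have h2 : (q : ℤ) ∣ 1 := ⟨i, h1.symm⟩
        have h3 : q ∣ 1 := by exact_mod_cast h2
        exact hq.one_lt.ne' (Nat.dvd_one.mp h3)
      · rw [zpow_sub, zpow_one, zpow_mul, zpow_natCast, hi, mul_inv_cancel])
  obtain ⟨⟨hLn, huq, huL⟩, hmax⟩ := hL
  have hmax' : ∀ K : Subgroup P, K.Normal → u ∉ K → L ≤ K → K ≤ L := by
    intro K hK huK hLK
    exact hmax ⟨hK, hLK huq, huK⟩ hLK
  refine ⟨L, hLn, huL, ?_⟩
  have hlcs : ∀ a ∈ (⊤ : Subgroup (P ⧸ L)).lowerCentralSeries c,
      ∀ b ∈ (⊤ : Subgroup (P ⧸ L)).lowerCentralSeries c, a * b = b * a := by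
    have h1 : (⊤ : Subgroup (P ⧸ L)).lowerCentralSeries c
        = ((⊤ : Subgroup P).lowerCentralSeries c).map (QuotientGroup.mk' L) := by
      rw [Subgroup.map_lowerCentralSeries, ← MonoidHom.range_eq_map,
        MonoidHom.range_eq_top.mpr (QuotientGroup.mk'_surjective L)]
    rw [h1]
    rintro _ ⟨a, ha, rfl⟩ _ ⟨b, hb, rfl⟩
    rw [← map_mul, ← map_mul, hab a ha b hb]
  have hfg' : Group.FG (P ⧸ L) := by
    have := hfg
    infer_instance
  apply mono_finite hfg' hlcs hq (u := (u : P ⧸ L))
  · intro h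
    exact huL ((QuotientGroup.eq_one_iff u).mp h)
  · rw [← QuotientGroup.mk_pow, QuotientGroup.eq_one_iff]; exact huq
  · rw [mem_center_iff]
    intro g
    obtain ⟨y, rfl⟩ := QuotientGroup.mk_surjective g
    rw [← QuotientGroup.mk_mul, ← QuotientGroup.mk_mul, mem_center_iff.mp huc y]
  · intro K hK hKne
    by_contra huK
    apply hKne
    have h1 : K.comap (QuotientGroup.mk' L) ≤ L := by
      have hh : u ∉ K.comap (QuotientGroup.mk' L) := huK
      apply hmax' _ (hK.comap _) hh
      intro x hx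
      show (x : P ⧸ L) ∈ K
      rw [(QuotientGroup.eq_one_iff x).mpr hx]; exact one_mem _
    rw [eq_bot_iff]
    intro x hx
    obtain ⟨y, rfl⟩ := QuotientGroup.mk_surjective x
    have : y ∈ L := h1 hx
    rw [mem_bot]
    exact (QuotientGroup.eq_one_iff y).mpr this

theorem lift_hom {G H : Type*} [Group G] [Group H] (f : G →* H) {k : ℕ} (x : Fin k → G)
    (w : FreeGroup (Fin k)) : f (FreeGroup.lift x w) = FreeGroup.lift (fun i => f (x i)) w := by
  have : f.comp (FreeGroup.lift x) = FreeGroup.lift (fun i => f (x i)) := by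
    apply FreeGroup.ext_hom
    intro i; simp
  exact DFunLike.congr_fun this w

theorem lift_mem {G : Type*} [Group G] (D : Subgroup G) {k : ℕ} (x : Fin k → G)
    (hx : ∀ i, x i ∈ D) (w : FreeGroup (Fin k)) : FreeGroup.lift x w ∈ D := by
  have := lift_hom D.subtype (fun i => (⟨x i, hx i⟩ : D)) w
  simp only [Subgroup.coe_subtype] at this
  rw [← this]
  exact SetLike.coe_mem _

/-- marginal subgroups centralise the values -/
theorem marg_comm {G : Type*} [Group G] {N : Subgroup G} (hN : N.Normal) {k : ℕ}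
    (w : FreeGroup (Fin k))
    (hmarg : ∀ x v : Fin k → G, (∀ i, v i ∈ N) →
      FreeGroup.lift (fun i => x i * v i) w = FreeGroup.lift x w)
    (x : Fin k → G) (n : G) (hn : n ∈ N) :
    n * FreeGroup.lift x w = FreeGroup.lift x w * n := by
  have h1 := lift_hom (MulAut.conj n).toMonoidHom x w
  have h2 : (fun i => (MulAut.conj n).toMonoidHom (x i)) = fun i => x i * ((x i)⁻¹ * n * x i * n⁻¹) := by
    funext i
    show n * x i * n⁻¹ = _
    group
  rw [h2, hmarg x _ (fun i => mul_mem (by simpa using hN.conj_mem n hn (x i)⁻¹) (inv_mem hn))] at h1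
  have h3 : n * FreeGroup.lift x w * n⁻¹ = FreeGroup.lift x w := h1
  calc n * FreeGroup.lift x w = (n * FreeGroup.lift x w * n⁻¹) * n := by group
    _ = _ := by rw [h3]

theorem torsion_fg {G : Type*} [Group G] (hfg : Group.FG G) {N : Subgroup G} (hN : N.Normal)
    (hfi : N.FiniteIndex) {c : ℕ}
    (hab : ∀ a ∈ N.lowerCentralSeries c, ∀ b ∈ N.lowerCentralSeries c, a * b = b * a) {k : ℕ}
    (w : FreeGroup (Fin k))
    (hmarg : ∀ x v : Fin k → G, (∀ i, v i ∈ N) →
      FreeGroup.lift (fun i => x i * v i) w = FreeGroup.lift x w)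
    (x : Fin k → G) : IsOfFinOrder (FreeGroup.lift x w) := by
  by_contra hinf
  set v := FreeGroup.lift x w with hv
  have hm0 : N.index ≠ 0 := hfi.index_ne_zero
  have huN : v ^ N.index ∈ N := Subgroup.pow_index_mem N v
  have hu : ¬ IsOfFinOrder (v ^ N.index) := by
    intro h
    exact hinf (h.of_pow hm0)
  -- the group `N`
  have hNfg : Group.FG N := by
    have := hfg
    infer_instance
  have habN : ∀ a ∈ (⊤ : Subgroup N).lowerCentralSeries c,
      ∀ b ∈ (⊤ : Subgroup N).lowerCentralSeries c, a * b = b * a := by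
    intro a ha b hb
    apply Subtype.ext
    apply hab
    · rw [← Subgroup.top_subtype_lowerCentralSeries]; exact ⟨a, ha, rfl⟩
    · rw [← Subgroup.top_subtype_lowerCentralSeries]; exact ⟨b, hb, rfl⟩
  have huc : (⟨v ^ N.index, huN⟩ : N) ∈ center N := by
    rw [mem_center_iff]
    intro n
    apply Subtype.ext
    have h1 : Commute (n : G) v := marg_comm hN w hmarg x n n.2
    exact (h1.pow_right N.index)
  have hu' : ¬ IsOfFinOrder (⟨v ^ N.index, huN⟩ : N) := by
    intro h
    apply hu
    exact (Submonoid.isOfFinOrder_coe (H := N.toSubmonoid) (x := ⟨v ^ N.index, huN⟩)).mpr h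
  obtain ⟨q, hqm, hq⟩ := Nat.exists_infinite_primes (N.index + 1)
  obtain ⟨L, hLn, huL, hLfin, hLp⟩ := exists_quotient hNfg habN hq huc hu'
  have hLfi : L.FiniteIndex := Subgroup.finiteIndex_of_finite_quotient
  have hL1 : (L.map N.subtype).FiniteIndex := by
    constructor
    rw [Subgroup.index_map_subtype]
    exact mul_ne_zero hLfi.index_ne_zero hm0
  set L2 := (L.map N.subtype).normalCore with hL2
  have hL2n : L2.Normal := Subgroup.normalCore_normal _
  have hL2fi : L2.FiniteIndex := inferInstance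
  have hL2N : L2 ≤ N := (Subgroup.normalCore_le _).trans (by
    rintro _ ⟨y, _, rfl⟩; exact y.2)
  have hfinG : Finite (G ⧸ L2) := inferInstance
  have : Fact q.Prime := ⟨hq⟩
  -- `N / L2` is a `q`-group
  have hNbar : IsPGroup q (N.map (QuotientGroup.mk' L2)) := by
    rintro ⟨_, n, hn, rfl⟩
    obtain ⟨e, he⟩ := (IsPGroup.iff_card (p := q) (G := N ⧸ L)).mp hLp
    refine ⟨e, ?_⟩
    apply Subtype.ext
    show (QuotientGroup.mk' L2 n) ^ q ^ e = 1
    rw [← map_pow]
    show ((n ^ q ^ e : G) : G ⧸ L2) = 1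
    rw [QuotientGroup.eq_one_iff]
    intro g
    have hgn : g * n * g⁻¹ ∈ N := hN.conj_mem n hn g
    have h1 : (⟨g * n * g⁻¹, hgn⟩ : N) ^ q ^ e ∈ L := by
      rw [← QuotientGroup.eq_one_iff, QuotientGroup.mk_pow, ← he]
      exact pow_card_eq_one'
    refine ⟨_, h1, ?_⟩
    show ((⟨g * n * g⁻¹, hgn⟩ : N) ^ q ^ e : G) = g * n ^ q ^ e * g⁻¹
    rw [conj_pow]
  have hNbn : (N.map (QuotientGroup.mk' L2)).Normal :=
    hN.map _ (QuotientGroup.mk'_surjective L2)
  have hidx : (N.map (QuotientGroup.mk' L2)).index = N.index :=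
    Subgroup.index_map_eq _ (QuotientGroup.mk'_surjective L2) (by
      rw [QuotientGroup.ker_mk']; exact hL2N)
  have hcop : Nat.Coprime (Nat.card (N.map (QuotientGroup.mk' L2)))
      (N.map (QuotientGroup.mk' L2)).index := by
    obtain ⟨j, hj⟩ := (IsPGroup.iff_card (p := q) (G := N.map (QuotientGroup.mk' L2))).mp hNbar
    rw [hj, hidx]
    apply Nat.Coprime.pow_left
    rw [Nat.Prime.coprime_iff_not_dvd hq]
    intro hdvd
    have := Nat.le_of_dvd (Nat.pos_of_ne_zero hm0) hdvd
    omega
  obtain ⟨D, hD⟩ := Subgroup.exists_right_complement'_of_coprime hcop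
  have hDcard : Nat.card D = N.index := by
    rw [← hidx]
    exact hD.symm.index_eq_card.symm
  have hdec : ∀ i, ∃ n ∈ N, ∃ y : G, (y : G ⧸ L2) ∈ D ∧
      ((n : G) : G ⧸ L2) * (y : G ⧸ L2) = (x i : G ⧸ L2) := by
    intro i
    obtain ⟨⟨⟨nb, hnb⟩, ⟨db, hdb⟩⟩, h1⟩ := hD.2 (x i : G ⧸ L2)
    obtain ⟨n, hn, rfl⟩ := hnb
    obtain ⟨y, rfl⟩ := QuotientGroup.mk_surjective db
    exact ⟨n, hn, y, hdb, h1⟩
  choose n hn y hyD hny using hdec
  have hval : ((v : G) : G ⧸ L2) ∈ D := by
    have h1 : ((v : G) : G ⧸ L2) = FreeGroup.lift (fun i => ((n i * y i : G) : G ⧸ L2)) w := by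
      have h2 := lift_hom (QuotientGroup.mk' L2) x w
      simp only [QuotientGroup.coe_mk'] at h2
      rw [hv, h2]
      congr 1
      congr 1
      funext i
      rw [← hny i]; rfl
    have h3 := lift_hom (QuotientGroup.mk' L2) (fun i => n i * y i) w
    simp only [QuotientGroup.coe_mk'] at h3
    rw [h1, ← h3]
    have h4 : (fun i => n i * y i) = fun i => y i * ((y i)⁻¹ * n i * y i) := by
      funext i; group
    rw [h4, hmarg y _ (fun i => by simpa using hN.conj_mem (n i) (hn i) (y i)⁻¹)]
    have h5 := lift_hom (QuotientGroup.mk' L2) y w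
    simp only [QuotientGroup.coe_mk'] at h5
    rw [h5]
    exact lift_mem D _ hyD w
  have hpow : ((v : G) : G ⧸ L2) ^ N.index = 1 := by
    have h1 : (⟨((v : G) : G ⧸ L2), hval⟩ : D) ^ Nat.card D = 1 := pow_card_eq_one'
    rw [hDcard] at h1
    exact congrArg Subtype.val h1
  rw [← QuotientGroup.mk_pow, QuotientGroup.eq_one_iff] at hpow
  obtain ⟨t, ht, htu⟩ := Subgroup.normalCore_le _ hpow
  apply huL
  have : t = ⟨v ^ N.index, huN⟩ := Subtype.ext htu
  rw [← this]; exact ht

/-- all values have finite order -/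
theorem torsion_values {G : Type*} [Group G] {N : Subgroup G} (hN : N.Normal)
    (hfi : N.FiniteIndex) {c : ℕ}
    (hab : ∀ a ∈ N.lowerCentralSeries c, ∀ b ∈ N.lowerCentralSeries c, a * b = b * a) {k : ℕ}
    (w : FreeGroup (Fin k))
    (hmarg : ∀ x v : Fin k → G, (∀ i, v i ∈ N) →
      FreeGroup.lift (fun i => x i * v i) w = FreeGroup.lift x w)
    (x : Fin k → G) : IsOfFinOrder (FreeGroup.lift x w) := by
  let G0 : Subgroup G := closure (Set.range x)
  have hG0 : Group.FG G0 := by
    rw [Group.fg_iff_subgroup_fg, Subgroup.fg_iff]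
    exact ⟨Set.range x, rfl, Set.finite_range x⟩
  let x0 : Fin k → G0 := fun i => ⟨x i, subset_closure (Set.mem_range_self i)⟩
  have h1 : IsOfFinOrder (FreeGroup.lift x0 w) := by
    refine torsion_fg hG0 (N := N.subgroupOf G0) (hN.subgroupOf G0) inferInstance (c := c) ?_ w ?_ x0
    · intro a ha b hb
      have h2 : ∀ a ∈ (N.subgroupOf G0).lowerCentralSeries c, (a : G) ∈ N.lowerCentralSeries c := by
        intro a ha
        have h3 : (((N.subgroupOf G0).lowerCentralSeries c).map G0.subtype)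
            ≤ N.lowerCentralSeries c := by
          rw [Subgroup.map_lowerCentralSeries]
          apply Subgroup.lowerCentralSeries_mono
          rw [Subgroup.subgroupOf_map_subtype]
          exact inf_le_left
        exact h3 ⟨a, ha, rfl⟩
      exact Subtype.ext (hab a (h2 a ha) b (h2 b hb))
    · intro y v hv
      apply Subtype.ext
      have e1 := lift_hom G0.subtype (fun i => y i * v i) w
      have e2 := lift_hom G0.subtype y w
      simp only [Subgroup.coe_subtype, Subgroup.coe_mul] at e1 e2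
      rw [e1, e2]
      exact hmarg (fun i => (y i : G)) (fun i => (v i : G)) (fun i => hv i)
  have h2 := lift_hom G0.subtype x0 w
  simp only [Subgroup.coe_subtype] at h2
  have h3 : (FreeGroup.lift x0 w : G) = FreeGroup.lift x w := h2
  rw [← h3]
  exact (Submonoid.isOfFinOrder_coe (H := G0.toSubmonoid) (x := FreeGroup.lift x0 w)).mpr h1

/-- The verbal subgroup is finite. -/
theorem finite_verbal {G : Type*} [Group G] {N : Subgroup G} (hN : N.Normal)
    (hfi : N.FiniteIndex) {c : ℕ}
    (hab : ∀ a ∈ N.lowerCentralSeries c, ∀ b ∈ N.lowerCentralSeries c, a * b = b * a) {k : ℕ}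
    (w : FreeGroup (Fin k))
    (hmarg : ∀ x v : Fin k → G, (∀ i, v i ∈ N) →
      FreeGroup.lift (fun i => x i * v i) w = FreeGroup.lift x w)
    (hfin : (Set.range fun x : Fin k → G => FreeGroup.lift x w).Finite) :
    Finite (closure (Set.range fun x : Fin k → G => FreeGroup.lift x w)) := by
  set W := closure (Set.range fun x : Fin k → G => FreeGroup.lift x w) with hW
  have hWfg : Group.FG W := by
    rw [Group.fg_iff_subgroup_fg, Subgroup.fg_iff]
    exact ⟨_, rfl, hfin⟩
  have hcen : N.subgroupOf W ≤ center W := by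
    intro n hn
    rw [mem_center_iff]
    intro g
    apply Subtype.ext
    have h1 : W ≤ centralizer ({(n : G)} : Set G) := by
      refine (closure_le _).mpr ?_
      rintro _ ⟨x, rfl⟩
      rw [SetLike.mem_coe, mem_centralizer_singleton_iff]
      exact (marg_comm hN w hmarg x n hn).symm
    exact (mem_centralizer_singleton_iff.mp (h1 g.2))
  have hcfi : (center W).FiniteIndex := by
    have : (N.subgroupOf W).FiniteIndex := inferInstance
    exact Subgroup.finiteIndex_of_le hcen
  have htor : ∀ g : W, IsOfFinOrder ((MonoidHom.transferCenterPow W g : center W)) := by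
    intro g
    obtain ⟨g, hg⟩ := g
    induction hg using Subgroup.closure_induction with
    | mem x hx =>
      obtain ⟨y, rfl⟩ := hx
      apply MonoidHom.isOfFinOrder
      have h1 := torsion_values hN hfi hab w hmarg y
      exact (Submonoid.isOfFinOrder_coe (H := W.toSubmonoid)
        (x := ⟨FreeGroup.lift y w, _⟩)).mp h1
    | one => 
      have : (⟨1, one_mem _⟩ : W) = 1 := rfl
      rw [this, map_one]; exact IsOfFinOrder.one
    | mul x y hx hy h1 h2 =>
      have : (⟨x * y, mul_mem hx hy⟩ : W) = ⟨x, hx⟩ * ⟨y, hy⟩ := rfl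
      rw [this, map_mul]
      exact Commute.isOfFinOrder_mul (mul_comm' _ _) h1 h2
    | inv x hx h1 =>
      have : (⟨x⁻¹, inv_mem hx⟩ : W) = (⟨x, hx⟩)⁻¹ := rfl
      rw [this, map_inv]
      exact h1.inv
  have htorW : ∀ g : W, IsOfFinOrder g := by
    intro g
    have h1 := htor g
    have h2 : IsOfFinOrder ((MonoidHom.transferCenterPow W g : center W) : W) :=
      (Submonoid.isOfFinOrder_coe (H := (center W).toSubmonoid)).mpr h1
    rw [MonoidHom.transferCenterPow_apply] at h2
    exact h2.of_pow hcfi.index_ne_zero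
  have hfc : Finite (center W) := by
    have htc : IsMulTorsion (center W) := fun z => by
      have := htorW (z : W)
      exact (Submonoid.isOfFinOrder_coe (H := (center W).toSubmonoid)).mp this
    have : Group.FG (center W) := by
      have := hWfg
      infer_instance
    open scoped IsMulCommutative in
    exact CommGroup.finite_of_fg_isMulTorsion (center W) htc
  apply Nat.finite_of_card_ne_zero
  rw [← (center W).card_mul_index]
  exact mul_ne_zero Nat.card_pos.ne' hcfi.index_ne_zero

end Pool.Agent.MP349281
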