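import Mathlib

set_option autoImplicit false

/-!
# P. Hall's basis theorem for actions of finitely generated nilpotent groups
-/

namespace Pool.Agent.MP349281

open Subgroup
open scoped commutatorElement

section chain

variable {P : Type*} [Group P]

/-- `Chain A B`: `B` is obtained from `A` by adding generators which are central modulo the
previous term. -/
inductive Chain (A : Subgroup P) : Subgroup P → Prop
  | base : Chain A A
  | step (B : Subgroup P) (z : P) : Chain A B → (∀ g : P, ⁅z, g⁆ ∈ B) → Chain A (B ⊔ zpowers z)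

theorem normal_sup_zpowers {B : Subgroup P} (hB : B.Normal) {z : P} (hz : ∀ g : P, ⁅z, g⁆ ∈ B) :
    (B ⊔ zpowers z).Normal := by
  constructor
  intro x hx g
  have hcomm : ∀ y ∈ B ⊔ zpowers z, ⁅g, y⁆ ∈ B ⊔ zpowers z := by
    intro y hy
    have h1 : B ⊔ zpowers z ≤ (B ⊔ zpowers z).comap (MulAut.conj g).toMonoidHom := by
      rw [sup_le_iff]
      refine ⟨fun b hb => ?_, ?_⟩
      · show g * b * g⁻¹ ∈ B ⊔ zpowers z
        exact (le_sup_left : B ≤ B ⊔ zpowers z) (hB.conj_mem b hb g)
      · rw [zpowers_le]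
        show g * z * g⁻¹ ∈ B ⊔ zpowers z
        have h2 : g * z * g⁻¹ = ⁅z, g⁆⁻¹ * z := by simp [commutatorElement_def, mul_assoc]
        rw [h2]
        exact mul_mem ((le_sup_left : B ≤ B ⊔ zpowers z) (inv_mem (hz g)))
          ((le_sup_right : zpowers z ≤ B ⊔ zpowers z) (mem_zpowers z))
    have h3 : g * y * g⁻¹ ∈ B ⊔ zpowers z := h1 hy
    rw [commutatorElement_def]
    exact mul_mem h3 (inv_mem hy)
  have h4 : g * x * g⁻¹ = ⁅g, x⁆ * x := by simp [commutatorElement_def]
  rw [h4]
  exact mul_mem (hcomm x hx) hx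

theorem Chain.normal {A : Subgroup P} (hA : A.Normal) {B : Subgroup P} (h : Chain A B) :
    B.Normal := by
  induction h with
  | base => exact hA
  | step B z _ hz ih => exact normal_sup_zpowers ih hz

theorem Chain.le {A : Subgroup P} {B : Subgroup P} (h : Chain A B) : A ≤ B := by
  induction h with
  | base => exact le_rfl
  | step B z _ hz ih => exact ih.trans le_sup_left

/-- adding a finite set of elements central modulo `B` -/
theorem Chain.add_finset {A : Subgroup P} {B : Subgroup P} (h : Chain A B) (T : Finset P)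
    (hT : ∀ t ∈ T, ∀ g : P, ⁅t, g⁆ ∈ B) : Chain A (B ⊔ closure (T : Set P)) := by
  classical
  induction T using Finset.induction_on with
  | empty => simpa using h
  | insert t T _ ih =>
    have h1 := ih (fun s hs => hT s (Finset.mem_insert_of_mem hs))
    have h2 := Chain.step (B ⊔ closure (T : Set P)) t h1
      (fun g => (le_sup_left : B ≤ _) (hT t (Finset.mem_insert_self t T) g))
    have h3 : B ⊔ closure (T : Set P) ⊔ zpowers t = B ⊔ closure ((insert t T : Finset P) : Set P) := by
      rw [Finset.coe_insert, Set.insert_eq, Subgroup.closure_union, ← zpowers_eq_closure, sup_assoc,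
        sup_comm (closure (T : Set P))]
    rwa [h3] at h2

/-- the lower central factors of a finitely generated group are finitely generated -/
theorem exists_gens (S : Finset P) (hS : closure (S : Set P) = ⊤) (i : ℕ) :
    ∃ T : Finset P, (∀ t ∈ T, t ∈ (⊤ : Subgroup P).lowerCentralSeries i) ∧
      (⊤ : Subgroup P).lowerCentralSeries i
        ≤ closure (T : Set P) ⊔ (⊤ : Subgroup P).lowerCentralSeries (i + 1) := by
  classical
  induction i with
  | zero =>
    refine ⟨S, fun t _ => mem_top t, ?_⟩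
    rw [hS]; exact le_top.trans le_sup_left
  | succ i ih =>
    obtain ⟨T, hT, hle⟩ := ih
    refine ⟨(T ×ˢ S).image (fun p => ⁅p.1, p.2⁆), ?_, ?_⟩
    · intro t ht
      rw [Finset.mem_image] at ht
      obtain ⟨⟨a, b⟩, hab, rfl⟩ := ht
      rw [Finset.mem_product] at hab
      rw [Subgroup.lowerCentralSeries_succ]
      exact commutator_mem_commutator (hT a hab.1) (mem_top b)
    · set R := closure (((T ×ˢ S).image (fun p => ⁅p.1, p.2⁆) : Finset P) : Set P) ⊔
        (⊤ : Subgroup P).lowerCentralSeries (i + 1 + 1) with hR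
      have hRle : R ≤ (⊤ : Subgroup P).lowerCentralSeries (i + 1) := by
        rw [hR, sup_le_iff]
        refine ⟨?_, (⊤ : Subgroup P).lowerCentralSeries_antitone (by omega)⟩
        rw [closure_le]
        intro t ht
        rw [Finset.mem_coe, Finset.mem_image] at ht
        obtain ⟨⟨a, b⟩, hab, rfl⟩ := ht
        rw [Finset.mem_product] at hab
        rw [Subgroup.lowerCentralSeries_succ]
        exact commutator_mem_commutator (hT a hab.1) (mem_top b)
      have hRn : R.Normal := by
        constructor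
        intro r hr g
        have h1 : ⁅r, g⁆ ∈ (⊤ : Subgroup P).lowerCentralSeries (i + 1 + 1) := by
          rw [Subgroup.lowerCentralSeries_succ]
          exact commutator_mem_commutator (hRle hr) (mem_top g)
        have h2 : g * r * g⁻¹ = ⁅r, g⁆⁻¹ * r := by simp [commutatorElement_def, mul_assoc]
        rw [h2]
        exact mul_mem (inv_mem ((le_sup_right : _ ≤ R) h1)) hr
      rw [Subgroup.lowerCentralSeries_succ, commutator_le]
      intro a ha g _
      have hga : (⊤ : Subgroup P) ≤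
          ({ carrier := {g | ⁅a, g⁆ ∈ R}
             one_mem' := by simp
             mul_mem' := by
               intro x y hx hy
               have h1 : ⁅a, x * y⁆ = ⁅a, x⁆ * (x * ⁅a, y⁆ * x⁻¹) := by
                 simp only [commutatorElement_def]; group
               show ⁅a, x * y⁆ ∈ R
               rw [h1]
               exact mul_mem hx (hRn.conj_mem _ hy x)
             inv_mem' := by
               intro x hx
               have h1 : ⁅a, x⁻¹⁆ = x⁻¹ * ⁅a, x⁆⁻¹ * x := by
                 simp only [commutatorElement_def]; group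
               show ⁅a, x⁻¹⁆ ∈ R
               rw [h1]
               simpa using hRn.conj_mem _ (inv_mem hx) x⁻¹ } : Subgroup P) := by
        rw [← hS, closure_le]
        intro s hs
        have has : (⊤ : Subgroup P).lowerCentralSeries i ≤
            ({ carrier := {a | ⁅a, s⁆ ∈ R}
               one_mem' := by simp
               mul_mem' := by
                 intro x y hx hy
                 have h1 : ⁅x * y, s⁆ = (x * ⁅y, s⁆ * x⁻¹) * ⁅x, s⁆ := by
                   simp only [commutatorElement_def]; group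
                 show ⁅x * y, s⁆ ∈ R
                 rw [h1]
                 exact mul_mem (hRn.conj_mem _ hy x) hx
               inv_mem' := by
                 intro x hx
                 have h1 : ⁅x⁻¹, s⁆ = x⁻¹ * ⁅x, s⁆⁻¹ * x := by
                   simp only [commutatorElement_def]; group
                 show ⁅x⁻¹, s⁆ ∈ R
                 rw [h1]
                 simpa using hRn.conj_mem _ (inv_mem hx) x⁻¹ } : Subgroup P) := by
          apply hle.trans
          rw [sup_le_iff, closure_le]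
          refine ⟨fun t ht => ?_, fun t ht => ?_⟩
          · show ⁅t, s⁆ ∈ R
            apply (le_sup_left : _ ≤ R)
            apply Subgroup.subset_closure
            rw [Finset.mem_coe, Finset.mem_image]
            exact ⟨(t, s), Finset.mem_product.mpr ⟨ht, hs⟩, rfl⟩
          · show ⁅t, s⁆ ∈ R
            apply (le_sup_right : _ ≤ R)
            rw [Subgroup.lowerCentralSeries_succ]
            exact commutator_mem_commutator ht (mem_top s)
        exact has ha
      exact hga (mem_top g)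

theorem exists_chain (S : Finset P) (hS : closure (S : Set P) = ⊤) {A : Subgroup P} {c : ℕ}
    (hA : (⊤ : Subgroup P).lowerCentralSeries c ≤ A) : Chain A ⊤ := by
  have key : ∀ j, ∀ i, i + j = c → Chain A (A ⊔ (⊤ : Subgroup P).lowerCentralSeries i) := by
    intro j
    induction j with
    | zero =>
      intro i hi
      have : i = c := by omega
      subst this
      rw [sup_eq_left.mpr hA]
      exact Chain.base
    | succ j ih =>
      intro i hi
      have h1 := ih (i + 1) (by omega)
      obtain ⟨T, hT, hle⟩ := exists_gens S hS i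
      have h2 := h1.add_finset T (fun t ht g => (le_sup_right : _ ≤ A ⊔ _) (by
        rw [Subgroup.lowerCentralSeries_succ]
        exact commutator_mem_commutator (hT t ht) (mem_top g)))
      have h3 : A ⊔ (⊤ : Subgroup P).lowerCentralSeries (i + 1) ⊔ closure (T : Set P)
          = A ⊔ (⊤ : Subgroup P).lowerCentralSeries i := by
        apply le_antisymm
        · rw [sup_le_iff, sup_le_iff]
          refine ⟨⟨le_sup_left, ?_⟩, ?_⟩
          · exact ((⊤ : Subgroup P).lowerCentralSeries_antitone (by omega)).trans le_sup_right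
          · rw [closure_le]
            exact fun t ht => (le_sup_right : _ ≤ A ⊔ _) (hT t ht)
        · rw [sup_le_iff]
          refine ⟨le_sup_left.trans le_sup_left, ?_⟩
          apply hle.trans
          rw [sup_le_iff]
          exact ⟨le_sup_right, le_sup_right.trans le_sup_left⟩
      rwa [h3] at h2
  have := key c 0 (by omega)
  rw [Subgroup.lowerCentralSeries_zero, sup_top_eq] at this
  exact this

end chain

section noeth

variable {P : Type*} [Group P] {M : Type*} [AddCommGroup M] [DistribMulAction P M]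

/-- invariance under a subgroup -/
def Inv (B : Subgroup P) (f : AddSubgroup M) : Prop := ∀ b ∈ B, ∀ x ∈ f, b • x ∈ f

/-- ascending chain condition on invariant subgroups -/
def Noeth (B : Subgroup P) (Y : AddSubgroup M) : Prop :=
  ∀ f : ℕ → AddSubgroup M, Monotone f → (∀ n, f n ≤ Y) → (∀ n, Inv B (f n)) →
    ∃ n, ∀ m, n ≤ m → f m = f n

/-- `Y₀ + z Y₀ + ... + z^(n-1) Y₀` -/
def XX (z : P) (Y₀ : AddSubgroup M) : ℕ → AddSubgroup M
  | 0 => ⊥
  | n + 1 => XX z Y₀ n ⊔ Y₀.map (DistribSMul.toAddMonoidHom M (z ^ n))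

theorem mem_XX_succ {z : P} {Y₀ : AddSubgroup M} {n : ℕ} {x : M} :
    x ∈ XX z Y₀ (n + 1) ↔ ∃ y ∈ XX z Y₀ n, ∃ x₀ ∈ Y₀, y + z ^ n • x₀ = x := by
  rw [XX, AddSubgroup.mem_sup]
  constructor
  · rintro ⟨y, hy, w, ⟨x₀, hx₀, rfl⟩, rfl⟩
    exact ⟨y, hy, x₀, hx₀, rfl⟩
  · rintro ⟨y, hy, x₀, hx₀, rfl⟩
    exact ⟨y, hy, _, ⟨x₀, hx₀, rfl⟩, rfl⟩

theorem XX_mono {z : P} {Y₀ : AddSubgroup M} : Monotone (XX z Y₀) :=
  monotone_nat_of_le_succ (fun n => by rw [XX]; exact le_sup_left)

theorem XX_inv {B : Subgroup P} (hB : B.Normal) {z : P} {Y₀ : AddSubgroup M} (hY₀ : Inv B Y₀)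
    (n : ℕ) : Inv B (XX z Y₀ n) := by
  induction n with
  | zero => intro b _ x hx; rw [XX, AddSubgroup.mem_bot] at hx ⊢; rw [hx, smul_zero]
  | succ n ih =>
    intro b hb x hx
    rw [mem_XX_succ] at hx ⊢
    obtain ⟨y, hy, x₀, hx₀, rfl⟩ := hx
    refine ⟨b • y, ih b hb y hy, ((z ^ n)⁻¹ * b * z ^ n) • x₀, hY₀ _ ?_ _ hx₀, ?_⟩
    · simpa using hB.conj_mem b hb (z ^ n)⁻¹
    · rw [smul_add, smul_smul, smul_smul]
      congr 2
      group

theorem smul_XX {z : P} {Y₀ : AddSubgroup M} {n : ℕ} {x : M} (hx : x ∈ XX z Y₀ n) :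
    z • x ∈ XX z Y₀ (n + 1) := by
  induction n generalizing x with
  | zero =>
    rw [XX, AddSubgroup.mem_bot] at hx
    rw [hx, smul_zero]; exact AddSubgroup.zero_mem _
  | succ n ih =>
    rw [mem_XX_succ] at hx
    obtain ⟨y, hy, x₀, hx₀, rfl⟩ := hx
    rw [mem_XX_succ]
    refine ⟨z • y, ih hy, x₀, hx₀, ?_⟩
    rw [smul_add, smul_smul, pow_succ']

theorem pow_smul_XX {z : P} {Y₀ : AddSubgroup M} {n : ℕ} (k : ℕ) {x : M} (hx : x ∈ XX z Y₀ n) :
    z ^ k • x ∈ XX z Y₀ (n + k) := by
  induction k with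
  | zero => simpa using hx
  | succ k ih =>
    rw [pow_succ', mul_smul]
    exact smul_XX ih

/-- leading coefficients -/
def Lc (z : P) (Y₀ f : AddSubgroup M) (n : ℕ) : AddSubgroup M where
  carrier := {x | x ∈ Y₀ ∧ ∃ a ∈ f, ∃ y ∈ XX z Y₀ n, z ^ n • x = a + y}
  zero_mem' := ⟨Y₀.zero_mem, 0, f.zero_mem, 0, (XX z Y₀ n).zero_mem, by simp⟩
  add_mem' := by
    rintro x x' ⟨hx, a, ha, y, hy, h⟩ ⟨hx', a', ha', y', hy', h'⟩
    refine ⟨Y₀.add_mem hx hx', a + a', f.add_mem ha ha', y + y', AddSubgroup.add_mem _ hy hy', ?_⟩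
    rw [smul_add, h, h']; abel
  neg_mem' := by
    rintro x ⟨hx, a, ha, y, hy, h⟩
    refine ⟨Y₀.neg_mem hx, -a, f.neg_mem ha, -y, AddSubgroup.neg_mem _ hy, ?_⟩
    rw [smul_neg, h]; abel

theorem Noeth.double {B : Subgroup P} {Y₀ : AddSubgroup M} (h : Noeth B Y₀)
    (L : ℕ → ℕ → AddSubgroup M) (hmono : ∀ j j' n n', j ≤ j' → n ≤ n' → L j n ≤ L j' n')
    (hle : ∀ j n, L j n ≤ Y₀) (hinv : ∀ j n, Inv B (L j n)) :
    ∃ J, ∀ j, J ≤ j → ∀ n, L j n = L J n := by
  obtain ⟨n0, hn0⟩ := h (fun n => L n n) (fun a b hab => hmono a b a b hab hab)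
    (fun n => hle n n) (fun n => hinv n n)
  have h1 : ∀ n, ∃ J, ∀ j, J ≤ j → L j n = L J n := fun n =>
    h (fun j => L j n) (fun a b hab => hmono a b n n hab le_rfl) (fun j => hle j n)
      (fun j => hinv j n)
  choose J hJ using h1
  refine ⟨max n0 ((Finset.range n0).sup J), fun j hj n => ?_⟩
  rcases Nat.lt_or_ge n n0 with hn | hn
  · have h2 : J n ≤ max n0 ((Finset.range n0).sup J) :=
      (Finset.le_sup (f := J) (Finset.mem_range.mpr hn)).trans (le_max_right _ _)
    rw [hJ n j (h2.trans hj), hJ n _ h2]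
  · have key : ∀ i, n0 ≤ i → L i n = L n0 n0 := by
      intro i hi
      apply le_antisymm
      · have : L (max i n) (max i n) = L n0 n0 := hn0 (max i n) (hi.trans (le_max_left _ _))
        rw [← this]
        exact hmono _ _ _ _ (le_max_left _ _) (le_max_right _ _)
      · exact hmono _ _ _ _ hi hn
    rw [key j ((le_max_left _ _).trans hj), key _ (le_max_left _ _)]

theorem Noeth.step {B : Subgroup P} (hB : B.Normal) (z : P) {Y₀ : AddSubgroup M}
    (hY₀ : Inv B Y₀) (h : Noeth B Y₀) {Y : AddSubgroup M}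
    (hY : ∀ y ∈ Y, ∃ N n : ℕ, z ^ N • y ∈ XX z Y₀ n) : Noeth (B ⊔ zpowers z) Y := by
  intro f hf hfY hfinv
  have hfB : ∀ n, Inv B (f n) := fun n b hb => hfinv n b ((le_sup_left : B ≤ _) hb)
  have hfz : ∀ n, ∀ x ∈ f n, z • x ∈ f n := fun n x hx =>
    hfinv n z ((le_sup_right : zpowers z ≤ _) (mem_zpowers z)) x hx
  have hfz' : ∀ n, ∀ x ∈ f n, ∀ k : ℕ, (z ^ k)⁻¹ • x ∈ f n := fun n x hx k =>
    hfinv n _ ((le_sup_right : zpowers z ≤ _) (inv_mem (pow_mem (mem_zpowers z) k))) x hx
  obtain ⟨J, hJ⟩ := h.double (fun j n => Lc z Y₀ (f j) n)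
    (by
      intro j j' n n' hj hn x hx
      obtain ⟨hx0, a, ha, y, hy, hxy⟩ := hx
      obtain ⟨t, rfl⟩ := Nat.exists_eq_add_of_le hn
      refine ⟨hx0, z ^ t • a, ?_, z ^ t • y, pow_smul_XX t hy, ?_⟩
      · exact hfinv j' _ ((le_sup_right : zpowers z ≤ _) (pow_mem (mem_zpowers z) t)) _ (hf hj ha)
      · rw [add_comm n t, pow_add, mul_smul, hxy, smul_add])
    (fun j n x hx => hx.1)
    (by
      intro j n b hb x hx
      obtain ⟨hx0, a, ha, y, hy, hxy⟩ := hx
      refine ⟨hY₀ b hb x hx0, (z ^ n * b * (z ^ n)⁻¹) • a, ?_, (z ^ n * b * (z ^ n)⁻¹) • y, ?_, ?_⟩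
      · exact hfB j _ (hB.conj_mem b hb _) a ha
      · exact XX_inv hB hY₀ n _ (hB.conj_mem b hb _) y hy
      · rw [← smul_add, ← hxy, smul_smul, smul_smul]
        congr 1
        group)
  refine ⟨J, fun j hj => le_antisymm ?_ (hf hj)⟩
  have key : ∀ n, ∀ b ∈ f j, b ∈ XX z Y₀ n → b ∈ f J := by
    intro n
    induction n with
    | zero =>
      intro b _ hb
      rw [XX, AddSubgroup.mem_bot] at hb
      rw [hb]; exact AddSubgroup.zero_mem _
    | succ n ih =>
      intro b hb hbX
      rw [mem_XX_succ] at hbX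
      obtain ⟨y, hy, x₀, hx₀, hbxy⟩ := hbX
      have h1 : x₀ ∈ Lc z Y₀ (f j) n := by
        refine ⟨hx₀, b, hb, -y, AddSubgroup.neg_mem _ hy, ?_⟩
        rw [← hbxy]; abel
      rw [hJ j hj n] at h1
      obtain ⟨_, a, ha, y', hy', h2⟩ := h1
      have h3 : b - a ∈ XX z Y₀ n := by
        have : b - a = y + y' := by rw [← hbxy, h2]; abel
        rw [this]; exact AddSubgroup.add_mem _ hy hy'
      have h4 := ih (b - a) (AddSubgroup.sub_mem _ hb (hf hj ha)) h3
      have h5 := AddSubgroup.add_mem _ h4 ha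
      simpa using h5
  intro b hb
  obtain ⟨N, n, hNn⟩ := hY b (hfY j hb)
  have h1 : z ^ N • b ∈ f j :=
    hfinv j _ ((le_sup_right : zpowers z ≤ _) (pow_mem (mem_zpowers z) N)) b hb
  have h2 := key n _ h1 hNn
  have h3 := hfz' J _ h2 N
  rwa [inv_smul_smul] at h3

/-- the `B`-invariant subgroup generated by `S` -/
def Sp (B : Subgroup P) (S : Set M) : AddSubgroup M :=
  AddSubgroup.closure {x | ∃ b ∈ B, ∃ s ∈ S, b • s = x}

theorem Sp_inv (B : Subgroup P) (S : Set M) : Inv B (Sp B S) := by
  intro b hb x hx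
  have h1 : Sp B S ≤ (Sp B S).comap (DistribSMul.toAddMonoidHom M b) := by
    unfold Sp
    rw [AddSubgroup.closure_le]
    rintro _ ⟨b', hb', s, hs, rfl⟩
    apply AddSubgroup.subset_closure
    exact ⟨b * b', mul_mem hb hb', s, hs, mul_smul _ _ _⟩
  exact h1 hx

theorem noeth_base (A : Subgroup P) (S : Finset M) (hA : ∀ a ∈ A, ∀ x : M, a • x = x) :
    Noeth A (Sp A (S : Set M)) := by
  have hSp : Sp A (S : Set M) = AddSubgroup.closure (S : Set M) := by
    unfold Sp
    congr 1
    ext x
    constructor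
    · rintro ⟨b, hb, s, hs, rfl⟩
      rw [hA b hb s]; exact hs
    · intro hx
      exact ⟨1, one_mem _, x, hx, one_smul _ _⟩
  rw [hSp]
  intro f hf hfY _
  let Y : Submodule ℤ M := Submodule.span ℤ (S : Set M)
  have hY : (AddSubgroup.closure (S : Set M)) = Y.toAddSubgroup := by
    simp only [Y]
    rw [Submodule.span_int_eq_addSubgroupClosure]
  have hfg : Y.FG := ⟨S, rfl⟩
  have : IsNoetherian ℤ Y := isNoetherian_of_fg_of_noetherian Y hfg
  have hst := monotone_stabilizes_iff_noetherian.mpr (inferInstance : IsNoetherian ℤ Y)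
  obtain ⟨n, hn⟩ := hst ⟨fun n => (AddSubgroup.toIntSubmodule (f n)).comap Y.subtype, by
    intro a b hab x hx
    exact hf hab hx⟩
  refine ⟨n, fun m hm => ?_⟩
  have h1 := hn m hm
  apply le_antisymm
  · intro x hx
    have hxY : x ∈ Y := by
      have := hfY m hx
      rw [hY] at this; exact this
    have h2 : (⟨x, hxY⟩ : Y) ∈ (AddSubgroup.toIntSubmodule (f m)).comap Y.subtype := hx
    have h3 : (⟨x, hxY⟩ : Y) ∈ (AddSubgroup.toIntSubmodule (f n)).comap Y.subtype := by
      have h4 : (AddSubgroup.toIntSubmodule (f n)).comap Y.subtype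
        = (AddSubgroup.toIntSubmodule (f m)).comap Y.subtype := h1
      rw [h4]; exact h2
    exact h3
  · exact hf hm

theorem noeth_chain {A : Subgroup P} (hAn : A.Normal) (hA : ∀ a ∈ A, ∀ x : M, a • x = x)
    (S : Finset M) {B : Subgroup P} (hB : Chain A B) : Noeth B (Sp B (S : Set M)) := by
  induction hB with
  | base => exact noeth_base A S hA
  | step B z hB hz ih =>
    have hBn := hB.normal hAn
    refine Noeth.step hBn z (Sp_inv B _) ih ?_
    intro y hy
    unfold Sp at hy
    induction hy using AddSubgroup.closure_induction with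
    | mem x hx =>
      obtain ⟨b', hb', s, hs, rfl⟩ := hx
      rw [sup_comm, Subgroup.mem_sup_of_normal_right] at hb'
      obtain ⟨t, ht, b, hb, rfl⟩ := hb'
      obtain ⟨i, rfl⟩ := mem_zpowers_iff.mp ht
      refine ⟨i.natAbs, (i.natAbs + i).toNat + 1, ?_⟩
      have h0 : (0 : ℤ) ≤ i.natAbs + i := by omega
      have h1 : z ^ i.natAbs • (z ^ i * b) • s = z ^ (i.natAbs + i).toNat • (b • s) := by
        rw [smul_smul, smul_smul, ← mul_assoc]
        congr 2
        rw [← zpow_natCast, ← zpow_add, ← zpow_natCast z ((i.natAbs : ℤ) + i).toNat,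
          Int.toNat_of_nonneg h0]
      rw [h1, mem_XX_succ]
      refine ⟨0, AddSubgroup.zero_mem _, b • s, ?_, zero_add _⟩
      exact AddSubgroup.subset_closure ⟨b, hb, s, hs, rfl⟩
    | zero => exact ⟨0, 0, by simp⟩
    | add x y _ _ hx hy =>
      obtain ⟨N, n, h⟩ := hx
      obtain ⟨N', n', h'⟩ := hy
      refine ⟨N + N', max (n + N') (n' + N), ?_⟩
      rw [smul_add]
      apply AddSubgroup.add_mem
      · apply XX_mono (le_max_left _ _)
        rw [add_comm N N', pow_add, mul_smul]
        exact pow_smul_XX N' h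
      · apply XX_mono (le_max_right _ _)
        rw [pow_add, mul_smul]
        exact pow_smul_XX N h'
    | neg x _ hx =>
      obtain ⟨N, n, h⟩ := hx
      exact ⟨N, n, by rw [smul_neg]; exact AddSubgroup.neg_mem _ h⟩

/-- Normal subgroups contained in `A` satisfy the ascending chain condition. -/
theorem acc_normal {A : Subgroup P} (hAn : A.Normal) (S : Finset P)
    (hS : closure (S : Set P) = ⊤) (hchain : Chain A ⊤) (d : P → M) (hinj : Function.Injective d)
    (hd : ∀ g h, d (g * h) = d g + g • d h) (hact : ∀ a ∈ A, ∀ x : M, a • x = x)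
    (K : ℕ → Subgroup P) (hK : Monotone K) (hKn : ∀ n, (K n).Normal) (hKA : ∀ n, K n ≤ A) :
    ∃ n, ∀ m, n ≤ m → K m = K n := by
  classical
  have h1 : d 1 = 0 := by simpa using hd 1 1
  have hdinv : ∀ g, d g⁻¹ = -(g⁻¹ • d g) := by
    intro g
    have := hd g⁻¹ g
    rw [inv_mul_cancel, h1] at this
    exact eq_neg_of_add_eq_zero_left this.symm
  have hmem : ∀ g : P, d g ∈ Sp (⊤ : Subgroup P) ((S.image d : Finset M) : Set M) := by
    intro g
    have hg : g ∈ closure (S : Set P) := by rw [hS]; exact mem_top g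
    induction hg using Subgroup.closure_induction with
    | mem x hx =>
      apply AddSubgroup.subset_closure
      exact ⟨1, mem_top _, d x, by simpa using ⟨x, hx, rfl⟩, one_smul _ _⟩
    | one => rw [h1]; exact AddSubgroup.zero_mem _
    | mul x y _ _ hx hy =>
      rw [hd]
      exact AddSubgroup.add_mem _ hx (Sp_inv _ _ x (mem_top x) _ hy)
    | inv x _ hx =>
      rw [hdinv]
      exact AddSubgroup.neg_mem _ (Sp_inv _ _ _ (mem_top _) _ hx)
  have hadd : ∀ a ∈ A, ∀ b, d (a * b) = d a + d b := by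
    intro a ha b; rw [hd, hact a ha]
  have hconj : ∀ a ∈ A, ∀ g, g • d a = d (g * a * g⁻¹) := by
    intro a ha g
    have e1 := hd g a
    have e2 := hadd (g * a * g⁻¹) (hAn.conj_mem a ha g) g
    have e3 : g * a * g⁻¹ * g = g * a := by group
    rw [e3, e1, add_comm] at e2
    exact add_right_cancel e2
  let f : ℕ → AddSubgroup M := fun n =>
    { carrier := {x | ∃ a ∈ K n, d a = x}
      zero_mem' := ⟨1, one_mem _, h1⟩
      add_mem' := by
        rintro _ _ ⟨a, ha, rfl⟩ ⟨b, hb, rfl⟩
        exact ⟨a * b, mul_mem ha hb, hadd a (hKA n ha) b⟩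
      neg_mem' := by
        rintro _ ⟨a, ha, rfl⟩
        refine ⟨a⁻¹, inv_mem ha, ?_⟩
        rw [hdinv, hact _ (inv_mem (hKA n ha))] }
  obtain ⟨n, hn⟩ := noeth_chain hAn hact (S.image d) hchain f
    (fun a b hab x hx => by
      obtain ⟨g, hg, rfl⟩ := hx
      exact ⟨g, hK hab hg, rfl⟩)
    (fun n x hx => by
      obtain ⟨g, hg, rfl⟩ := hx
      exact hmem g)
    (fun n b _ x hx => by
      obtain ⟨g, hg, rfl⟩ := hx
      exact ⟨b * g * b⁻¹, (hKn n).conj_mem g hg b, (hconj g (hKA n hg) b).symm⟩)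
  refine ⟨n, fun m hm => le_antisymm ?_ (hK hm)⟩
  intro g hg
  have h2 : d g ∈ f m := ⟨g, hg, rfl⟩
  rw [hn m hm] at h2
  obtain ⟨g', hg', h3⟩ := h2
  rw [← hinj h3]; exact hg'

end noeth

end Pool.Agent.MP349281
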