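import Mathlib

set_option autoImplicit false

/-!
# The Kaluzhnin-Krasner derivation
-/

namespace Pool.Agent.MP349281

open scoped Classical in
theorem exists_derivation.{u} {G : Type u} [Group G] (A : Subgroup G) [A.Normal]
    (hA : ∀ a ∈ A, ∀ b ∈ A, a * b = b * a) :
    ∃ (M : Type u) (_ : AddCommGroup M) (_ : DistribMulAction G M) (d : G → M),
      Function.Injective d ∧ (∀ g h, d (g * h) = d g + g • d h) ∧ (∀ a ∈ A, ∀ x : M, a • x = x) := by
  let _ : CommGroup A := { (inferInstance : Group A) with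
    mul_comm := fun a b => Subtype.ext (hA a.1 a.2 b.1 b.2) }
  let M := ((G ⧸ A) → Additive A) × ((G ⧸ A) → ℤ)
  let act : DistribMulAction G M :=
    { smul := fun g f => (fun γ => f.1 ((g : G ⧸ A)⁻¹ * γ), fun γ => f.2 ((g : G ⧸ A)⁻¹ * γ))
      one_smul := fun f => by
        show ((fun γ => f.1 (((1 : G) : G ⧸ A)⁻¹ * γ), fun γ => f.2 (((1 : G) : G ⧸ A)⁻¹ * γ)) : M) = f
        simp
      mul_smul := fun g h f => by
        show ((fun γ => f.1 (((g * h : G) : G ⧸ A)⁻¹ * γ),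
            fun γ => f.2 (((g * h : G) : G ⧸ A)⁻¹ * γ)) : M)
          = (fun γ => f.1 ((h : G ⧸ A)⁻¹ * ((g : G ⧸ A)⁻¹ * γ)),
            fun γ => f.2 ((h : G ⧸ A)⁻¹ * ((g : G ⧸ A)⁻¹ * γ)))
        simp [mul_assoc]
      smul_zero := fun g => rfl
      smul_add := fun g f f' => rfl }
  have hact : ∀ (g : G) (f : M), g • f
      = (fun γ => f.1 ((g : G ⧸ A)⁻¹ * γ), fun γ => f.2 ((g : G ⧸ A)⁻¹ * γ)) := fun g f => rfl
  have hmem : ∀ (g : G) (γ : G ⧸ A), γ.out⁻¹ * g * ((g : G ⧸ A)⁻¹ * γ).out ∈ A := by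
    intro g γ
    rw [← QuotientGroup.eq_one_iff]
    simp
  let d : G → M := fun g => (fun γ => Additive.ofMul ⟨γ.out⁻¹ * g * ((g : G ⧸ A)⁻¹ * γ).out, hmem g γ⟩,
    fun γ => (if γ = (g : G ⧸ A) then 1 else 0) - (if γ = 1 then 1 else 0))
  refine ⟨M, inferInstance, act, d, ?_, ?_, ?_⟩
  · intro g h hgh
    have h2 : (g : G ⧸ A) = (h : G ⧸ A) := by
      have h1 := congrFun (congrArg Prod.snd hgh) (g : G ⧸ A)
      simp only [d, if_true] at h1
      by_contra hne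
      rw [if_neg hne] at h1
      omega
    have h1 := congrFun (congrArg Prod.fst hgh) (1 : G ⧸ A)
    simp only [d] at h1
    have h3 := congrArg Subtype.val (Additive.ofMul.injective h1)
    simp only [h2] at h3
    have h4 : ((1 : G ⧸ A).out)⁻¹ * g = ((1 : G ⧸ A).out)⁻¹ * h := mul_right_cancel h3
    exact mul_left_cancel h4
  · intro g h
    rw [hact]
    apply Prod.ext
    · funext γ
      show Additive.ofMul (⟨γ.out⁻¹ * (g * h) * (((g * h : G) : G ⧸ A)⁻¹ * γ).out, hmem (g * h) γ⟩ : A)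
        = Additive.ofMul (⟨γ.out⁻¹ * g * ((g : G ⧸ A)⁻¹ * γ).out, hmem g γ⟩ : A)
          + Additive.ofMul (⟨(((g : G ⧸ A)⁻¹ * γ).out)⁻¹ * h *
            ((h : G ⧸ A)⁻¹ * ((g : G ⧸ A)⁻¹ * γ)).out, hmem h _⟩ : A)
      rw [← ofMul_mul]
      congr 1
      apply Subtype.ext
      simp only [Subgroup.coe_mul]
      have e : ((g * h : G) : G ⧸ A)⁻¹ * γ = (h : G ⧸ A)⁻¹ * ((g : G ⧸ A)⁻¹ * γ) := by
        simp [mul_assoc]
      rw [e]
      group
    · funext γ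
      show ((if γ = ((g * h : G) : G ⧸ A) then 1 else 0) - (if γ = 1 then 1 else 0) : ℤ)
        = ((if γ = (g : G ⧸ A) then 1 else 0) - (if γ = 1 then 1 else 0))
          + ((if (g : G ⧸ A)⁻¹ * γ = (h : G ⧸ A) then 1 else 0)
            - (if (g : G ⧸ A)⁻¹ * γ = 1 then 1 else 0))
      have e1 : (γ = ((g * h : G) : G ⧸ A)) ↔ ((g : G ⧸ A)⁻¹ * γ = (h : G ⧸ A)) := by
        rw [inv_mul_eq_iff_eq_mul]; simp
      have e2 : ((g : G ⧸ A)⁻¹ * γ = 1) ↔ (γ = (g : G ⧸ A)) := by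
        rw [inv_mul_eq_iff_eq_mul]; simp
      simp only [e1, e2]
      ring
  · intro a ha x
    rw [hact]
    have : (a : G ⧸ A) = 1 := (QuotientGroup.eq_one_iff a).mpr ha
    rw [this]
    simp

end Pool.Agent.MP349281
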