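import Pool.Agent.Lib.MP_349281_al.Poly
import Pool.Agent.Lib.MP_349281_al.Baire
import Pool.Agent.Lib.MP_349281_al.Kal

set_option autoImplicit false
set_option linter.unusedSectionVars false

/-!
# Words with fewer than continuum many values are locally constant
-/

namespace Pool.Agent.MP349281

open Subgroup Set
open scoped commutatorElement

/-- Winning functions which agree with `d ∘ F` near `1` are constant near `1`. -/
theorem win_const {H : Type*} [Group H] {X : Type*} [Group X] [TopologicalSpace X]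
    [IsTopologicalGroup X] [CompactSpace X] {G : Type*} [TopologicalSpace G]
    [TotallySeparatedSpace G] {M : Type*} [AddCommGroup M] [DistribMulAction H M]
    (d : G → M) (hd : Function.Injective d) (F : X → G) (hF : Continuous F)
    (hcard : Cardinal.mk (Set.range F) < Cardinal.continuum) (Φ : X → M)
    (hW : Win (G := H) Φ) :
    ∀ U : Set X, IsClopen U → (1 : X) ∈ U → (∀ m ∈ U, Φ m = d (F m)) →
      ∃ U' : Set X, IsClopen U' ∧ (1 : X) ∈ U' ∧ ∀ m ∈ U', F m = F 1 := by
  induction hW with
  | const c =>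
    intro U hU h1 h
    refine ⟨U, hU, h1, fun m hm => hd ?_⟩
    rw [← h m hm, ← h 1 h1]
  | step Φ p _ ih =>
    intro U hU h1 h
    obtain ⟨D, hDU, hD, ⟨g, hg⟩, y, hy⟩ := exists_const_clopen F hF hcard U hU ⟨1, h1⟩
    have hD' : IsClopen ((fun m : X => g * m) ⁻¹' D) := hD.preimage (continuous_const_mul g)
    refine ih g (d y) (((fun m : X => g * m) ⁻¹' D) ∩ U) (hD'.inter hU) ⟨by simpa using hg, h1⟩ ?_
    rintro m ⟨hm1, hm2⟩
    have hm1' : g * m ∈ D := hm1
    have h2 : Φ (g * m) = d y := by rw [h _ (hDU hm1'), hy _ hm1']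
    simp only [Pi.add_apply, Pi.sub_apply, T, h2, sub_add_cancel]
    exact h m hm2

section word

variable {G : Type*} [Group G] {N : Subgroup G} [N.Normal] {k : ℕ} {M : Type*} [AddCommGroup M]
  [DistribMulAction G M]

theorem Q_conjG (w : ℕ) (g : G) : ∀ u ∈ Q N k w, (fun m => g * u m * g⁻¹) ∈ Q N k w := by
  induction w using Nat.strong_induction_on with
  | _ w IH =>
  have key : Q N k w ≤ (Q N k w).comap
      (MulAut.conj (fun _ => g : (Fin k → N) → G)).toMonoidHom := by
    apply Q_le
    · intro x hx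
      show (fun _ => g : (Fin k → N) → G) * (fun _ => x) * (fun _ => g : (Fin k → N) → G)⁻¹ ∈ Q N k w
      exact Q_const ((inferInstance : (LL N w).Normal).conj_mem _ hx g)
    · intro hw i γ
      show (fun _ => g : (Fin k → N) → G) * (fun m => γ * (m i : G) * γ⁻¹)
        * (fun _ => g : (Fin k → N) → G)⁻¹ ∈ Q N k w
      have h1 : (fun _ => g : (Fin k → N) → G) * (fun m => γ * (m i : G) * γ⁻¹)
        * (fun _ => g : (Fin k → N) → G)⁻¹ = fun m => (g * γ) * (m i : G) * (g * γ)⁻¹ := by
        funext m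
        simp only [Pi.mul_apply, Pi.inv_apply]; group
      rw [h1]
      rcases Nat.lt_or_ge 0 w with h | h
      · have : w = 1 := by omega
        subst this; exact Q_coord i _
      · have : w = 0 := by omega
        subst this
        rw [Q]
        exact subset_closure (Or.inl (Or.inr ⟨by omega, i, _, rfl⟩))
    · intro a b ha hb ha1 hb1 hab u hu v hv
      have h1 := IH a ha u hu
      have h2 := IH b hb v hv
      have h3 := Q_comm ha1 hb1 h1 h2
      rw [hab] at h3
      have h4 : (MulAut.conj (fun _ => g : (Fin k → N) → G)).toMonoidHom ⁅u, v⁆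
          = ⁅(fun m => g * u m * g⁻¹), (fun m => g * v m * g⁻¹)⁆ := by
        rw [map_commutatorElement]; rfl
      rw [Subgroup.mem_comap, h4]
      exact h3
  exact key

/-- level zero functions -/
abbrev L0 (N : Subgroup G) [N.Normal] (k : ℕ) (M : Type*) [AddCommGroup M] [DistribMulAction G M] :
    AddSubgroup ((Fin k → N) → M) :=
  VV (⊥ : AddSubgroup ((Fin k → N) → M)) (Q N k (0 + 1)) 1

/-- level one functions -/
abbrev L1 (N : Subgroup G) [N.Normal] (k : ℕ) (M : Type*) [AddCommGroup M] [DistribMulAction G M] :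
    AddSubgroup ((Fin k → N) → M) :=
  VV (L0 N k M) (Q N k (0 + 1)) 1

theorem mem_L0 {p : (Fin k → N) → G} (hp : p ∈ Q N k 1) (c : M) :
    (fun m => p m • c) ∈ L0 N k M := by
  apply V_le_VV (e := p)
  · simpa using hp
  · intro h
    rw [AddSubgroup.mem_bot]
    funext m
    simp only [T, Pi.sub_apply, Pi.zero_apply, smul_smul]
    rw [inv_mul_cancel_right, sub_self]

theorem mem_L1_of_L0 {f : (Fin k → N) → M} (hf : f ∈ L0 N k M) : f ∈ L1 N k M := by
  apply V_le_VV (e := 1)
  · simp
  · intro h
    apply AddSubgroup.sub_mem _ hf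
    have : ∀ f ∈ L0 N k M, T (1 : (Fin k → N) → G) h f ∈ L0 N k M := by
      intro f hf
      unfold L0 VV at hf
      induction hf using AddSubgroup.iSup_induction' with
      | hp e f hf =>
        have h1 := V_transport (p := 1) (g := h) (B := (⊥ : AddSubgroup ((Fin k → N) → M))) (by
          intro f hf
          rw [AddSubgroup.mem_bot] at hf
          rw [hf, T_zero]; exact AddSubgroup.zero_mem _) hf
        refine V_le_VV ?_ h1
        have he : e.1 ∈ Q N k (0 + 1) := by simpa using e.2
        simpa using (filt_Q (N := N) (k := k)).sh_mem (i := 0) he h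
      | h1 => rw [T_zero]; exact AddSubgroup.zero_mem _
      | hadd x y _ _ hx hy => rw [T_add]; exact AddSubgroup.add_mem _ hx hy
    exact this f hf

theorem mem_L1_coord (d : G → M) (hd : ∀ g h, d (g * h) = d g + g • d h)
    {p : (Fin k → N) → G} (hp : p ∈ Q N k 1) (γ : G) (i : Fin k) :
    (fun m => (p m * γ) • d (m i : G)) ∈ L1 N k M := by
  apply V_le_VV (e := p * (fun m => γ * (m i : G) * γ⁻¹))
  · simpa using mul_mem hp (Q_coord i γ)
  · intro h
    have h1 : (fun m => (p m * γ) • d (m i : G)) -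
        T (p * (fun m => γ * (m i : G) * γ⁻¹)) h (fun m => (p m * γ) • d (m i : G))
        = fun m => p m • (-((γ * (h i : G)⁻¹) • d (h i : G))) := by
      funext m
      simp only [T, Pi.sub_apply, Pi.mul_apply, smul_smul, Subgroup.coe_mul, hd, smul_add, smul_neg]
      have e1 : p m * (γ * (m i : G) * γ⁻¹) * (p (h * m) * (γ * ((h i : G) * (m i : G)) * γ⁻¹))⁻¹ *
          (p (h * m) * γ) = p m * (γ * (h i : G)⁻¹) := by group
      have e2 : p m * (γ * (m i : G) * γ⁻¹) * (p (h * m) * (γ * ((h i : G) * (m i : G)) * γ⁻¹))⁻¹ *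
          (p (h * m) * γ * (h i : G)) = p m * γ := by group
      rw [e1, e2]
      abel
    rw [h1]
    exact mem_L0 hp _

/-- The class of word functions. -/
structure IsWord (d : G → M) (W : (Fin k → N) → G) : Prop where
  form : ∃ p ∈ Q N k 1, ∃ g : G, ∀ m, W m = p m * g
  lev : ∀ p ∈ Q N k 1, ∀ g : G, (fun m => (p m * g) • d (W m)) ∈ L1 N k M

variable (d : G → M) (hd : ∀ g h, d (g * h) = d g + g • d h)

include hd in
theorem d_one : d 1 = 0 := by
  have := hd 1 1
  simpa using this

include hd in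
theorem d_inv (g : G) : d g⁻¹ = - (g⁻¹ • d g) := by
  have := hd g⁻¹ g
  rw [inv_mul_cancel, d_one d hd] at this
  exact eq_neg_of_add_eq_zero_left this.symm

include hd in
theorem isWord_one : IsWord d (1 : (Fin k → N) → G) := by
  refine ⟨⟨1, one_mem _, 1, fun m => by simp⟩, fun p hp g => ?_⟩
  have : (fun m => (p m * g) • d ((1 : (Fin k → N) → G) m)) = 0 := by
    funext m; simp [d_one d hd]
  rw [this]; exact AddSubgroup.zero_mem _

include hd in
theorem IsWord.mul {W W' : (Fin k → N) → G} (h : IsWord d W) (h' : IsWord d W') :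
    IsWord d (W * W') := by
  obtain ⟨p, hp, g, hW⟩ := h.form
  obtain ⟨p', hp', g', hW'⟩ := h'.form
  refine ⟨⟨p * (fun m => g * p' m * g⁻¹), mul_mem hp (Q_conjG 1 g p' hp'), g * g', fun m => ?_⟩,
    fun q hq γ => ?_⟩
  · simp only [Pi.mul_apply, hW, hW']; group
  · have h1 : (fun m => (q m * γ) • d ((W * W') m))
        = (fun m => (q m * γ) • d (W m))
          + (fun m => ((q * (fun m => γ * p m * γ⁻¹)) m * (γ * g)) • d (W' m)) := by
      funext m
      simp only [Pi.add_apply, Pi.mul_apply, hd, smul_add, smul_smul]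
      congr 2
      rw [hW]; group
    rw [h1]
    exact AddSubgroup.add_mem _ (h.lev q hq γ)
      (h'.lev _ (mul_mem hq (Q_conjG 1 γ p hp)) _)

include hd in
theorem IsWord.inv {W : (Fin k → N) → G} (h : IsWord d W) : IsWord d (W⁻¹) := by
  obtain ⟨p, hp, g, hW⟩ := h.form
  have hform : ∀ m, (W m)⁻¹ = (g⁻¹ * p⁻¹ m * g) * g⁻¹ := by
    intro m; rw [hW]; simp
  have hp' : (fun m => g⁻¹ * p⁻¹ m * g) ∈ Q N k 1 := by
    have := Q_conjG 1 g⁻¹ p⁻¹ (inv_mem hp)
    simpa using this
  refine ⟨⟨_, hp', g⁻¹, fun m => by simpa using hform m⟩, fun q hq γ => ?_⟩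
  have h1 : (fun m => (q m * γ) • d (W⁻¹ m))
      = -(fun m => ((q * (fun m => γ * (g⁻¹ * p⁻¹ m * g) * γ⁻¹)) m * (γ * g⁻¹)) • d (W m)) := by
    funext m
    simp only [Pi.inv_apply, Pi.neg_apply, Pi.mul_apply, d_inv d hd, smul_neg, smul_smul]
    congr 2
    rw [hW]; group
  rw [h1]
  exact AddSubgroup.neg_mem _ (h.lev _ (mul_mem hq (Q_conjG 1 γ _ hp')) _)

include hd in
theorem isWord_letter (x : Fin k → G) (i : Fin k) :
    IsWord (N := N) d (fun m => x i * (m i : G)) := by
  refine ⟨⟨_, Q_coord i (x i), x i, fun m => by group⟩, fun p hp g => ?_⟩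
  have h1 : (fun m : Fin k → N => (p m * g) • d (x i * (m i : G)))
      = (fun m => p m • (g • d (x i))) + (fun m => (p m * (g * x i)) • d (m i : G)) := by
    funext m
    simp only [Pi.add_apply, hd, smul_add, smul_smul, mul_assoc]
  rw [h1]
  exact AddSubgroup.add_mem _ (mem_L1_of_L0 (mem_L0 hp _)) (mem_L1_coord d hd hp _ i)

include hd in
theorem isWord_lift (x : Fin k → G) (w : FreeGroup (Fin k)) :
    IsWord (N := N) d (fun m => FreeGroup.lift (fun i => x i * (m i : G)) w) := by
  induction w using FreeGroup.induction_on with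
  | C1 =>
    have : (fun m : Fin k → N => FreeGroup.lift (fun i => x i * (m i : G)) (1 : FreeGroup (Fin k)))
      = 1 := by funext m; simp
    rw [this]; exact isWord_one d hd
  | of i =>
    have : (fun m : Fin k → N => FreeGroup.lift (fun i => x i * (m i : G)) (FreeGroup.of i))
      = fun m => x i * (m i : G) := by funext m; simp
    rw [this]; exact isWord_letter d hd x i
  | inv_of i _ =>
    have : (fun m : Fin k → N => FreeGroup.lift (fun i => x i * (m i : G)) (FreeGroup.of i)⁻¹)
      = (fun m : Fin k → N => x i * (m i : G))⁻¹ := by funext m; simp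
    rw [this]; exact (isWord_letter d hd x i).inv d hd
  | mul a b ha hb =>
    have : (fun m : Fin k → N => FreeGroup.lift (fun i => x i * (m i : G)) (a * b))
      = (fun m : Fin k → N => FreeGroup.lift (fun i => x i * (m i : G)) a)
        * (fun m : Fin k → N => FreeGroup.lift (fun i => x i * (m i : G)) b) := by
      funext m; simp
    rw [this]; exact ha.mul d hd hb

include hd in
theorem win_word {c : ℕ} (hact : ∀ a ∈ N.lowerCentralSeries c, ∀ x : M, a • x = x)
    (x : Fin k → G) (w : FreeGroup (Fin k)) :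
    Win (G := G) (fun m : Fin k → N => d (FreeGroup.lift (fun i => x i * (m i : G)) w)) := by
  have h1 := (isWord_lift (N := N) d hd x w).lev 1 (one_mem _) 1
  simp only [Pi.one_apply, mul_one, one_smul] at h1
  apply level_one (P := fun i => Q N k (i + 1)) filt_Q (D := 2 * c)
  · intro y hy m z
    apply hact
    have := Q_values (2 * c + 1) (by omega) y hy m
    unfold LL at this
    have e : (2 * c + 1 - 1) / 2 = c := by omega
    rwa [e] at this
  · exact h1

end word

section top

variable {G : Type*} [Group G] [TopologicalSpace G] [IsTopologicalGroup G]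

theorem continuous_lift {X : Type*} [TopologicalSpace X] {k : ℕ} (f : Fin k → X → G)
    (hf : ∀ i, Continuous (f i)) (w : FreeGroup (Fin k)) :
    Continuous (fun m => FreeGroup.lift (fun i => f i m) w) := by
  induction w using FreeGroup.induction_on with
  | C1 => simpa using continuous_const
  | of i => simpa using hf i
  | inv_of i _ =>
    simp only [map_inv, FreeGroup.lift_apply_of]
    exact (hf i).inv
  | mul a b ha hb =>
    simp only [map_mul]
    exact Continuous.mul ha hb

variable [CompactSpace G] [T2Space G] [TotallyDisconnectedSpace G]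

theorem locally_const {N : Subgroup G} [N.Normal] (hN : IsOpen (N : Set G)) {c : ℕ}
    (hab : ∀ a ∈ N.lowerCentralSeries c, ∀ b ∈ N.lowerCentralSeries c, a * b = b * a)
    {k : ℕ} (w : FreeGroup (Fin k))
    (hcard : Cardinal.mk (Set.range fun x : Fin k → G => FreeGroup.lift x w)
      < Cardinal.continuum) (x : Fin k → G) :
    ∃ U : Subgroup G, U.Normal ∧ IsOpen (U : Set G) ∧ ∀ v : Fin k → G, (∀ i, v i ∈ U) →
      FreeGroup.lift (fun i => x i * v i) w = FreeGroup.lift x w := by
  obtain ⟨M, _, _, d, hinj, hd, hact⟩ := exists_derivation (N.lowerCentralSeries c) hab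
  have hcomp : CompactSpace N :=
    isCompact_iff_compactSpace.mp (Subgroup.isClosed_of_isOpen N hN).isCompact
  let F : (Fin k → N) → G := fun m => FreeGroup.lift (fun i => x i * (m i : G)) w
  have hF : Continuous F := continuous_lift _ (fun i => by fun_prop) w
  have hcardF : Cardinal.mk (Set.range F) < Cardinal.continuum := by
    refine lt_of_le_of_lt (Cardinal.mk_le_mk_of_subset ?_) hcard
    rintro _ ⟨m, rfl⟩
    exact ⟨_, rfl⟩
  obtain ⟨U', hU', h1, hconst⟩ := win_const (H := G) d hinj F hF hcardF _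
    (win_word (N := N) d hd hact x w) Set.univ isClopen_univ (mem_univ _) (fun m _ => rfl)
  -- find a box neighbourhood
  have h2 : U' ∈ nhds (1 : Fin k → N) := hU'.isOpen.mem_nhds h1
  obtain ⟨V, hVN, hV⟩ : ∃ V : Set N, V ∈ nhds (1 : N) ∧ ∀ m : Fin k → N, (∀ i, m i ∈ V) → m ∈ U' := by
    rw [nhds_pi, Filter.mem_pi] at h2
    obtain ⟨I, hI, t, ht, hsub⟩ := h2
    refine ⟨⋂ i, t i, ?_, fun m hm => hsub (fun i _ => ?_)⟩
    · rw [Filter.iInter_mem]; exact fun i => ht i
    · exact mem_iInter.mp (hm i) i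
  obtain ⟨V', hV'V, hV'o, hV'1⟩ := mem_nhds_iff.mp hVN
  have hO : IsOpen ((↑) '' V' : Set G) := hN.isOpenMap_subtype_val _ hV'o
  obtain ⟨H, hH⟩ := ProfiniteGrp.exist_openNormalSubgroup_sub_open_nhds_of_one hO
    ⟨1, hV'1, rfl⟩
  refine ⟨H.toSubgroup, H.isNormal', H.toOpenSubgroup.isOpen', fun v hv => ?_⟩
  have hv' : ∀ i, ∃ n : N, n ∈ V' ∧ (n : G) = v i := fun i => hH (hv i)
  choose m hm hmv using hv'
  have h3 := hconst m (hV m (fun i => hV'V (hm i)))
  simp only [F, hmv] at h3
  rw [h3]
  congr 1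
  simp

/-- `w` has only finitely many values and there is an open marginal subgroup. -/
theorem finite_values {N : Subgroup G} [N.Normal] (hN : IsOpen (N : Set G)) {c : ℕ}
    (hab : ∀ a ∈ N.lowerCentralSeries c, ∀ b ∈ N.lowerCentralSeries c, a * b = b * a)
    {k : ℕ} (w : FreeGroup (Fin k))
    (hcard : Cardinal.mk (Set.range fun x : Fin k → G => FreeGroup.lift x w)
      < Cardinal.continuum) :
    (Set.range fun x : Fin k → G => FreeGroup.lift x w).Finite ∧
    ∃ U : Subgroup G, U.Normal ∧ IsOpen (U : Set G) ∧ ∀ x v : Fin k → G, (∀ i, v i ∈ U) →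
      FreeGroup.lift (fun i => x i * v i) w = FreeGroup.lift x w := by
  choose U hUn hUo hU using locally_const hN hab w hcard
  have hcover : ∀ x : Fin k → G, {y : Fin k → G | ∀ i, (x i)⁻¹ * y i ∈ U x} ∈ nhds x := by
    intro x
    apply IsOpen.mem_nhds
    · have : {y : Fin k → G | ∀ i, (x i)⁻¹ * y i ∈ U x}
          = ⋂ i, (fun y : Fin k → G => (x i)⁻¹ * y i) ⁻¹' (U x : Set G) := by
        ext y; simp
      rw [this]
      exact isOpen_iInter_of_finite (fun i => (hUo x).preimage (by fun_prop))
    · intro i; simp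
  obtain ⟨t, ht⟩ := CompactSpace.elim_nhds_subcover _ hcover
  have hmem : ∀ y : Fin k → G, ∃ x ∈ t, ∀ i, (x i)⁻¹ * y i ∈ U x := by
    intro y
    have : y ∈ ⋃ x ∈ t, {y : Fin k → G | ∀ i, (x i)⁻¹ * y i ∈ U x} := by
      rw [ht]; trivial
    simpa using this
  have hval : ∀ y x : Fin k → G, (∀ i, (x i)⁻¹ * y i ∈ U x) →
      FreeGroup.lift y w = FreeGroup.lift x w := by
    intro y x h
    have := hU x (fun i => (x i)⁻¹ * y i) h
    simpa using this
  refine ⟨?_, ?_⟩
  · apply (t.finite_toSet.image (fun x : Fin k → G => FreeGroup.lift x w)).subset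
    rintro _ ⟨y, rfl⟩
    obtain ⟨x, hx, h⟩ := hmem y
    exact ⟨x, hx, (hval y x h).symm⟩
  · refine ⟨⨅ x ∈ t, U x, ?_, ?_, ?_⟩
    · apply Subgroup.normal_iInf_normal
      intro x
      apply Subgroup.normal_iInf_normal
      intro _
      exact hUn x
    · have : ((⨅ x ∈ t, U x : Subgroup G) : Set G) = ⋂ x ∈ t, (U x : Set G) := by
        simp [Subgroup.coe_iInf]
      rw [this]
      exact isOpen_biInter_finset (fun x _ => hUo x)
    · intro y v hv
      obtain ⟨x, hx, h⟩ := hmem y
      have hv' : ∀ i, v i ∈ U x := fun i => by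
        have := hv i
        simp only [Subgroup.mem_iInf] at this
        exact this x hx
      rw [hval y x h]
      apply hval
      intro i
      have := (U x).mul_mem (h i) (hv' i)
      simpa [mul_assoc] using this

end top

end Pool.Agent.MP349281
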