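import Pool.Agent.Lib.MP_349281_al.Hall
import Pool.Agent.Lib.MP_349281_al.Kal

set_option autoImplicit false
set_option linter.unusedSectionVars false

/-!
# Finitely generated abelian-by-nilpotent groups with a monolith of order `q` are finite
-/

namespace Pool.Agent.MP349281

open Subgroup
open scoped commutatorElement

section un

variable {P : Type*} [Group P]

/-- unipotent of length `s` -/
def Un : ℕ → P → Prop
  | 0, a => a = 1
  | s + 1, a => ∀ g : P, Un s ⁅g, a⁆

theorem un_one (s : ℕ) : Un s (1 : P) := by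
  induction s with
  | zero => rfl
  | succ s ih => intro g; simpa using ih

theorem un_mono {s t : ℕ} (h : s ≤ t) : ∀ {a : P}, Un s a → Un t a := by
  induction t, h using Nat.le_induction with
  | base => exact fun h => h
  | succ t _ ih =>
    have key : ∀ t : ℕ, ∀ a : P, Un t a → Un (t + 1) a := by
      intro t
      induction t with
      | zero => intro a ha; rw [show a = 1 from ha]; exact un_one 1
      | succ t ih => intro a ha g; exact ih _ (ha g)
    intro a h
    exact key t _ (ih h)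

variable {A : Subgroup P} (hAn : A.Normal) (hab : ∀ a ∈ A, ∀ b ∈ A, a * b = b * a)

include hAn hab in
theorem un_mul (s : ℕ) : ∀ a ∈ A, ∀ b ∈ A, Un s a → Un s b → Un s (a * b) := by
  induction s with
  | zero => intro a _ b _ ha hb; rw [show a = 1 from ha, show b = 1 from hb]; simpa using un_one 0
  | succ s ih =>
    intro a ha b hb h1 h2 g
    have hga : ⁅g, a⁆ ∈ A := by
      rw [commutatorElement_def]; exact mul_mem (hAn.conj_mem a ha g) (inv_mem ha)
    have hgb : ⁅g, b⁆ ∈ A := by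
      rw [commutatorElement_def]; exact mul_mem (hAn.conj_mem b hb g) (inv_mem hb)
    have e : ⁅g, a * b⁆ = ⁅g, a⁆ * ⁅g, b⁆ := by
      have e1 : ⁅g, a * b⁆ = ⁅g, a⁆ * (a * ⁅g, b⁆ * a⁻¹) := by
        simp only [commutatorElement_def]; group
      rw [e1, hab a ha _ hgb]; group
    rw [e]
    exact ih _ hga _ hgb (h1 g) (h2 g)

include hAn hab in
theorem un_inv (s : ℕ) : ∀ a ∈ A, Un s a → Un s a⁻¹ := by
  induction s with
  | zero => intro a _ ha; rw [show a = 1 from ha]; simpa using un_one 0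
  | succ s ih =>
    intro a ha h1 g
    have hga : ⁅g, a⁆ ∈ A := by
      rw [commutatorElement_def]; exact mul_mem (hAn.conj_mem a ha g) (inv_mem ha)
    have e : ⁅g, a⁻¹⁆ = ⁅g, a⁆⁻¹ := by
      have e1 : ⁅g, a⁻¹⁆ = a⁻¹ * (⁅g, a⁆⁻¹ * a) := by
        simp only [commutatorElement_def]; group
      rw [e1, hab _ (inv_mem hga) a ha]; group
    rw [e]
    exact ih _ hga (h1 g)

include hAn hab in
/-- if all elements of `A` are unipotent of bounded length then `P` is nilpotent -/
theorem nilpotent_of_un {c s : ℕ} (hc : (⊤ : Subgroup P).lowerCentralSeries c ≤ A)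
    (h : ∀ a ∈ A, Un s a) : Group.IsNilpotent P := by
  rw [Subgroup.nilpotent_iff_lowerCentralSeries]
  refine ⟨c + s, ?_⟩
  have key : ∀ i, i ≤ s → ∀ a ∈ (⊤ : Subgroup P).lowerCentralSeries (c + i), Un (s - i) a := by
    intro i
    induction i with
    | zero => intro _ a ha; exact h a (hc ha)
    | succ i ih =>
      intro hi
      let S : Subgroup P :=
        { carrier := {a | a ∈ A ∧ Un (s - (i + 1)) a}
          one_mem' := ⟨one_mem _, un_one _⟩
          mul_mem' := by
            rintro a b ⟨ha, ha'⟩ ⟨hb, hb'⟩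
            exact ⟨mul_mem ha hb, un_mul hAn hab _ a ha b hb ha' hb'⟩
          inv_mem' := by
            rintro a ⟨ha, ha'⟩
            exact ⟨inv_mem ha, un_inv hAn hab _ a ha ha'⟩ }
      have hS : (⊤ : Subgroup P).lowerCentralSeries (c + (i + 1)) ≤ S := by
        rw [← add_assoc, Subgroup.lowerCentralSeries_succ, commutator_le]
        intro a ha g _
        have haA : a ∈ A := hc ((⊤ : Subgroup P).lowerCentralSeries_antitone (by omega) ha)
        have h1 := ih (by omega) a ha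
        have e : s - i = (s - (i + 1)) + 1 := by omega
        rw [e] at h1
        have h2 := h1 g
        have hga : ⁅g, a⁆ ∈ A := by
          rw [commutatorElement_def]; exact mul_mem (hAn.conj_mem a haA g) (inv_mem haA)
        have e2 : ⁅a, g⁆ = ⁅g, a⁆⁻¹ := by simp
        rw [e2]
        exact ⟨inv_mem hga, un_inv hAn hab _ _ hga h2⟩
      exact fun a ha => (hS ha).2
  rw [eq_bot_iff]
  intro a ha
  have := key s le_rfl a ha
  rw [Nat.sub_self] at this
  exact this

/-- the centralizer of `B` in `A` -/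
def YY (A B : Subgroup P) : Subgroup P := A ⊓ centralizer (B : Set P)

theorem mem_YY {A B : Subgroup P} {a : P} : a ∈ YY A B ↔ a ∈ A ∧ ∀ b ∈ B, b * a = a * b := by
  unfold YY
  rw [mem_inf, mem_centralizer_iff]
  rfl

include hAn in
theorem YY_normal {B : Subgroup P} (hB : B.Normal) : (YY A B).Normal := by
  constructor
  intro a ha g
  rw [mem_YY] at ha ⊢
  refine ⟨hAn.conj_mem a ha.1 g, fun b hb => ?_⟩
  have h1 := ha.2 (g⁻¹ * b * g) (by simpa using hB.conj_mem b hb g⁻¹)
  calc b * (g * a * g⁻¹) = g * ((g⁻¹ * b * g) * a) * g⁻¹ := by group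
    _ = g * (a * (g⁻¹ * b * g)) * g⁻¹ := by rw [h1]
    _ = g * a * g⁻¹ * b := by group

include hAn hab in
theorem un_step {B : Subgroup P} (hB : B.Normal) {z : P} (hz : ∀ g, ⁅z, g⁆ ∈ B)
    (hacc : ∀ K : ℕ → Subgroup P, Monotone K → (∀ n, (K n).Normal) → (∀ n, K n ≤ A) →
      ∃ n, ∀ m, n ≤ m → K m = K n)
    {u : P} (hu1 : u ≠ 1) (huc : u ∈ center P)
    (hmono : ∀ K : Subgroup P, K.Normal → K ≠ ⊥ → u ∈ K)
    (h : ∃ s, ∀ a ∈ YY A (B ⊔ zpowers z), Un s a) : ∃ s, ∀ a ∈ YY A B, Un s a := by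
  have hYn := YY_normal hAn hB
  set Y := YY A B with hY
  have hYA : Y ≤ A := inf_le_left
  let φ : P → P := fun a => ⁅z, a⁆
  have hφY : ∀ a ∈ Y, φ a ∈ Y := by
    intro a ha
    show ⁅z, a⁆ ∈ Y
    rw [commutatorElement_def]
    exact mul_mem (hYn.conj_mem a ha z) (inv_mem ha)
  have hφmul : ∀ a ∈ Y, ∀ b ∈ Y, φ (a * b) = φ a * φ b := by
    intro a ha b hb
    show ⁅z, a * b⁆ = ⁅z, a⁆ * ⁅z, b⁆
    have e1 : ⁅z, a * b⁆ = ⁅z, a⁆ * (a * ⁅z, b⁆ * a⁻¹) := by
      simp only [commutatorElement_def]; group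
    rw [e1, hab a (hYA ha) _ (hYA (hφY b hb))]
    show ⁅z, a⁆ * (⁅z, b⁆ * a * a⁻¹) = _
    group
  have hφ1 : φ 1 = 1 := by show ⁅z, (1 : P)⁆ = 1; simp
  have hφinv : ∀ a ∈ Y, φ a⁻¹ = (φ a)⁻¹ := by
    intro a ha
    have := hφmul a⁻¹ (inv_mem ha) a ha
    rw [inv_mul_cancel, hφ1] at this
    exact eq_inv_of_mul_eq_one_left this.symm
  have hφconj : ∀ a ∈ Y, ∀ g, φ (g * a * g⁻¹) = g * φ a * g⁻¹ := by
    intro a ha g
    show ⁅z, g * a * g⁻¹⁆ = g * ⁅z, a⁆ * g⁻¹
    have ha' := hYn.conj_mem a ha g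
    -- conjugation by `g z g⁻¹` and by `z` agree on `Y`
    have hzz : (z * (g * a * g⁻¹) * z⁻¹) ∈ Y := hYn.conj_mem _ ha' z
    have hb : ⁅z, g⁆⁻¹ ∈ B := inv_mem (hz g)
    have h1 := (mem_YY.mp hzz).2 _ hb
    have e1 : g * z * g⁻¹ = ⁅z, g⁆⁻¹ * z := by simp [commutatorElement_def, mul_assoc]
    have e2 : g * ⁅z, a⁆ * g⁻¹ = (g * z * g⁻¹) * (g * a * g⁻¹) * (g * z * g⁻¹)⁻¹ * (g * a * g⁻¹)⁻¹ := by
      simp only [commutatorElement_def]; group
    have e3 : (g * z * g⁻¹) * (g * a * g⁻¹) * (g * z * g⁻¹)⁻¹ = z * (g * a * g⁻¹) * z⁻¹ := by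
      rw [e1]
      calc ⁅z, g⁆⁻¹ * z * (g * a * g⁻¹) * (⁅z, g⁆⁻¹ * z)⁻¹
          = (⁅z, g⁆⁻¹ * (z * (g * a * g⁻¹) * z⁻¹)) * ⁅z, g⁆ := by group
        _ = ((z * (g * a * g⁻¹) * z⁻¹) * ⁅z, g⁆⁻¹) * ⁅z, g⁆ := by rw [h1]
        _ = z * (g * a * g⁻¹) * z⁻¹ := by group
    rw [e2, e3, commutatorElement_def]
  -- iterates
  have hit : ∀ n, (∀ a ∈ Y, φ^[n] a ∈ Y) ∧ (∀ a ∈ Y, ∀ b ∈ Y, φ^[n] (a * b) = φ^[n] a * φ^[n] b) ∧
      (∀ a ∈ Y, ∀ g, φ^[n] (g * a * g⁻¹) = g * φ^[n] a * g⁻¹) ∧ φ^[n] 1 = 1 ∧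
      (∀ a ∈ Y, φ^[n] a⁻¹ = (φ^[n] a)⁻¹) := by
    intro n
    induction n with
    | zero => simp
    | succ n ih =>
      obtain ⟨i1, i2, i3, i4, i5⟩ := ih
      refine ⟨fun a ha => ?_, fun a ha b hb => ?_, fun a ha g => ?_, ?_, fun a ha => ?_⟩
      · rw [Function.iterate_succ_apply']; exact hφY _ (i1 a ha)
      · rw [Function.iterate_succ_apply', i2 a ha b hb, hφmul _ (i1 a ha) _ (i1 b hb),
          Function.iterate_succ_apply', Function.iterate_succ_apply']
      · rw [Function.iterate_succ_apply', i3 a ha g, hφconj _ (i1 a ha) g,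
          Function.iterate_succ_apply']
      · rw [Function.iterate_succ_apply', i4, hφ1]
      · rw [Function.iterate_succ_apply', i5 a ha, hφinv _ (i1 a ha), Function.iterate_succ_apply']
  let K : ℕ → Subgroup P := fun n =>
    { carrier := {a | a ∈ Y ∧ φ^[n] a = 1}
      one_mem' := ⟨one_mem _, (hit n).2.2.2.1⟩
      mul_mem' := by
        rintro a b ⟨ha, ha'⟩ ⟨hb, hb'⟩
        exact ⟨mul_mem ha hb, by rw [(hit n).2.1 a ha b hb, ha', hb', mul_one]⟩
      inv_mem' := by
        rintro a ⟨ha, ha'⟩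
        exact ⟨inv_mem ha, by rw [(hit n).2.2.2.2 a ha, ha', inv_one]⟩ }
  have hKmono : Monotone K := monotone_nat_of_le_succ (fun n a ha => by
    refine ⟨ha.1, ?_⟩
    rw [Function.iterate_succ_apply', ha.2, hφ1])
  have hKn : ∀ n, (K n).Normal := fun n => ⟨fun a ha g => ⟨hYn.conj_mem a ha.1 g, by
    rw [(hit n).2.2.1 a ha.1 g, ha.2]; group⟩⟩
  obtain ⟨n, hn⟩ := hacc K hKmono hKn (fun n a ha => hYA ha.1)
  let I : Subgroup P :=
    { carrier := {b | ∃ a ∈ Y, φ^[n] a = b}
      one_mem' := ⟨1, one_mem _, (hit n).2.2.2.1⟩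
      mul_mem' := by
        rintro _ _ ⟨a, ha, rfl⟩ ⟨b, hb, rfl⟩
        exact ⟨a * b, mul_mem ha hb, (hit n).2.1 a ha b hb⟩
      inv_mem' := by
        rintro _ ⟨a, ha, rfl⟩
        exact ⟨a⁻¹, inv_mem ha, (hit n).2.2.2.2 a ha⟩ }
  have hIn : I.Normal := ⟨by
    rintro _ ⟨a, ha, rfl⟩ g
    exact ⟨g * a * g⁻¹, hYn.conj_mem a ha g, (hit n).2.2.1 a ha g⟩⟩
  have hI : I = ⊥ := by
    by_contra hne
    obtain ⟨a, ha, hau⟩ := hmono I hIn hne
    have h1 : φ u = 1 := by
      show ⁅z, u⁆ = 1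
      rw [commutatorElement_eq_one_iff_mul_comm]
      exact (mem_center_iff.mp huc z)
    have h2 : a ∈ K (n + 1) := ⟨ha, by rw [Function.iterate_succ_apply', hau, h1]⟩
    rw [hn (n + 1) (Nat.le_succ n)] at h2
    exact hu1 (by rw [← hau, h2.2])
  have hall : ∀ a ∈ Y, φ^[n] a = 1 := by
    intro a ha
    have : φ^[n] a ∈ I := ⟨a, ha, rfl⟩
    rw [hI] at this
    exact this
  obtain ⟨s', hs'⟩ := h
  -- one step of the filtration
  have hker : ∀ a ∈ Y, φ a = 1 → a ∈ YY A (B ⊔ zpowers z) := by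
    intro a ha h1
    rw [mem_YY]
    refine ⟨hYA ha, fun b hb => ?_⟩
    have h2 : B ⊔ zpowers z ≤ centralizer ({a} : Set P) := by
      rw [sup_le_iff]
      refine ⟨fun b hb => ?_, ?_⟩
      · rw [mem_centralizer_singleton_iff]
        exact ((mem_YY.mp ha).2 b hb)
      · rw [zpowers_le, mem_centralizer_singleton_iff]
        exact commutatorElement_eq_one_iff_mul_comm.mp h1
    exact mem_centralizer_singleton_iff.mp (h2 hb)
  have hone : ∀ s, ∀ a ∈ Y, Un s (φ a) → Un (s + s') a := by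
    intro s
    induction s with
    | zero => intro a ha h1; rw [zero_add]; exact hs' a (hker a ha h1)
    | succ s ih =>
      intro a ha h1
      have e : s + 1 + s' = s + s' + 1 := by ring
      rw [e]
      intro g
      have hga : ⁅g, a⁆ ∈ Y := by
        rw [commutatorElement_def]; exact mul_mem (hYn.conj_mem a ha g) (inv_mem ha)
      apply ih _ hga
      have h2 : φ ⁅g, a⁆ = ⁅g, φ a⁆ := by
        rw [commutatorElement_def, hφmul _ (hYn.conj_mem a ha g) _ (inv_mem ha), hφconj a ha g,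
          hφinv a ha, commutatorElement_def]
      rw [h2]
      exact h1 g
  have hfin : ∀ j, ∀ a ∈ Y, φ^[j] a = 1 → Un (j * s') a := by
    intro j
    induction j with
    | zero => intro a _ h1; rw [zero_mul]; exact h1
    | succ j ih =>
      intro a ha h1
      rw [Function.iterate_succ_apply] at h1
      have h2 := ih (φ a) (hφY a ha) h1
      have h3 := hone _ a ha h2
      have e : (j + 1) * s' = j * s' + s' := by ring
      rw [e]; exact h3
  exact ⟨n * s', fun a ha => hfin n a ha (hall a ha)⟩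

include hAn hab in
theorem un_all (hacc : ∀ K : ℕ → Subgroup P, Monotone K → (∀ n, (K n).Normal) →
      (∀ n, K n ≤ A) → ∃ n, ∀ m, n ≤ m → K m = K n)
    {u : P} (hu1 : u ≠ 1) (huc : u ∈ center P)
    (hmono : ∀ K : Subgroup P, K.Normal → K ≠ ⊥ → u ∈ K) (hchain : Chain A ⊤) :
    ∃ s, ∀ a ∈ A, Un s a := by
  have key : ∀ B, Chain A B → (∃ s, ∀ a ∈ YY A B, Un s a) → ∃ s, ∀ a ∈ YY A A, Un s a := by
    intro B hB
    induction hB with
    | base => exact fun h => h
    | step B z hB hz ih =>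
      exact fun h => ih (un_step hAn hab (hB.normal hAn) hz hacc hu1 huc hmono h)
  obtain ⟨s, hs⟩ := key ⊤ hchain ⟨1, fun a ha g => by
    rw [mem_YY] at ha
    show ⁅g, a⁆ = 1
    rw [commutatorElement_eq_one_iff_mul_comm]
    exact ha.2 g (mem_top g)⟩
  refine ⟨s, fun a ha => hs a ?_⟩
  rw [mem_YY]
  exact ⟨ha, fun b hb => hab b hb a ha⟩

end un

section tors

/-- in a finitely generated nilpotent group whose central elements have `q`-power order,
all elements have `q`-power order. -/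
theorem torsion_up (q : ℕ) (P : Type*) [Group P] [Group.IsNilpotent P] (hfg : Group.FG P)
    (hc : ∀ z ∈ center P, ∃ j, z ^ q ^ j = 1) : ∀ x : P, ∃ j, x ^ q ^ j = 1 := by
  revert hfg hc
  refine Group.nilpotent_center_quotient_ind (P := fun P _ _ => Group.FG P →
    (∀ z ∈ center P, ∃ j, z ^ q ^ j = 1) → ∀ x : P, ∃ j, x ^ q ^ j = 1) P ?_ ?_
  · intro G _ _ _ _ x
    exact ⟨0, Subsingleton.elim _ _⟩
  · intro G _ _ ih hfg hc x
    have hfg' : Group.FG (G ⧸ center G) := by
      have := hfg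
      infer_instance
    obtain ⟨S, hS⟩ := (Group.fg_def (G := G)).mp hfg
    have h1 : ∀ z ∈ center (G ⧸ center G), ∃ j, z ^ q ^ j = 1 := by
      intro z hz
      obtain ⟨y, rfl⟩ := QuotientGroup.mk_surjective z
      have hy : ∀ g : G, ⁅y, g⁆ ∈ center G := by
        intro g
        rw [← QuotientGroup.eq_one_iff]
        have h2 := mem_center_iff.mp hz (g : G ⧸ center G)
        have h3 : ((⁅y, g⁆ : G) : G ⧸ center G)
            = (y : G ⧸ center G) * g * (y : G ⧸ center G)⁻¹ * (g : G ⧸ center G)⁻¹ := rfl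
        rw [h3, ← h2]
        group
      have hpow : ∀ (g : G) (n : ℕ), ⁅y ^ n, g⁆ = ⁅y, g⁆ ^ n := by
        intro g n
        induction n with
        | zero => simp
        | succ n ihn =>
          have e : ⁅y ^ (n + 1), g⁆ = y ^ n * ⁅y, g⁆ * (y ^ n)⁻¹ * ⁅y ^ n, g⁆ := by
            simp only [commutatorElement_def, pow_succ]; group
          rw [e, ihn, (mem_center_iff.mp (hy g) (y ^ n))]
          rw [pow_succ']
          group
      have hj : ∀ g : G, ∃ j, ⁅y, g⁆ ^ q ^ j = 1 := fun g => hc _ (hy g)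
      choose j hj using hj
      refine ⟨S.sup j, ?_⟩
      rw [← QuotientGroup.mk_pow, QuotientGroup.eq_one_iff]
      have h3 : (⊤ : Subgroup G) ≤ centralizer ({y ^ q ^ S.sup j} : Set G) := by
        rw [← hS, closure_le]
        intro s hs
        rw [SetLike.mem_coe, mem_centralizer_singleton_iff, eq_comm,
          ← commutatorElement_eq_one_iff_mul_comm, hpow]
        have hle : j s ≤ S.sup j := Finset.le_sup (f := j) hs
        obtain ⟨t, ht⟩ := Nat.exists_eq_add_of_le hle
        rw [ht, pow_add, pow_mul, hj s, one_pow]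
      rw [mem_center_iff]
      intro g
      exact mem_centralizer_singleton_iff.mp (h3 (mem_top g))
    obtain ⟨j, hj⟩ := ih hfg' h1 (x : G ⧸ center G)
    rw [← QuotientGroup.mk_pow, QuotientGroup.eq_one_iff] at hj
    obtain ⟨j', hj'⟩ := hc _ hj
    exact ⟨j + j', by rw [pow_add, pow_mul]; exact hj'⟩

theorem finite_of_torsion (P : Type*) [Group P] [Group.IsNilpotent P] (hfg : Group.FG P)
    (ht : ∀ x : P, IsOfFinOrder x) : Finite P := by
  revert hfg ht
  refine Group.nilpotent_center_quotient_ind (P := fun P _ _ => Group.FG P →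
    (∀ x : P, IsOfFinOrder x) → Finite P) P ?_ ?_
  · intro G _ _ _ _
    infer_instance
  · intro G _ _ ih hfg ht
    have hfg' : Group.FG (G ⧸ center G) := by
      have := hfg
      infer_instance
    have hfin : Finite (G ⧸ center G) := by
      apply ih hfg'
      intro x
      obtain ⟨y, rfl⟩ := QuotientGroup.mk_surjective x
      exact (QuotientGroup.mk' (center G)).isOfFinOrder (ht y)
    have hidx : (center G).FiniteIndex := Subgroup.finiteIndex_of_finite_quotient
    have hfgc : Group.FG (center G) := by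
      have := hfg
      infer_instance
    have hfc : Finite (center G) := by
      have htc : IsMulTorsion (center G) := fun x => by
        have := ht (x : G)
        rwa [← Submonoid.isOfFinOrder_coe]
      open scoped IsMulCommutative in
      exact CommGroup.finite_of_fg_isMulTorsion (center G) htc
    apply Nat.finite_of_card_ne_zero
    rw [← (center G).card_mul_index]
    exact mul_ne_zero Nat.card_pos.ne' hidx.index_ne_zero

end tors

end Pool.Agent.MP349281
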