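import Mathlib

set_option autoImplicit false

/-!
# The elimination game

`X` and `G` are groups, `M` is an abelian group on which `G` acts.  For `e : X → G` and `h : X` let
`T e h` be the operator `f ↦ (m ↦ e m * (e (h m))⁻¹ • f (h m))` on functions `X → M`.
-/

namespace Pool.Agent.MP349281

section game

variable {G : Type*} [Group G] {X : Type*} [Group X] {M : Type*} [AddCommGroup M]
  [DistribMulAction G M]

/-- Translation of a function by `h`. -/
def sh (h : X) (e : X → G) : X → G := fun m => e (h * m)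

/-- The twisted translation operator. -/
def T (e : X → G) (h : X) (f : X → M) : X → M := fun m => (e m * (e (h * m))⁻¹) • f (h * m)

/-- The winning functions of the elimination game. -/
inductive Win : (X → M) → Prop
  | const (c : M) : Win (fun _ => c)
  | step (Φ : X → M) (p : X → G)
      (h : ∀ (g : X) (κ : M), Win (Φ - T p g Φ + T p g (fun _ => κ))) : Win Φ

theorem T_add (e : X → G) (h : X) (f f' : X → M) : T e h (f + f') = T e h f + T e h f' := by
  funext m; simp [T]

theorem T_zero (e : X → G) (h : X) : T e h (0 : X → M) = 0 := by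
  funext m; simp [T]

theorem T_neg (e : X → G) (h : X) (f : X → M) : T e h (-f) = - T e h f := by
  funext m; simp [T]

theorem T_sub (e : X → G) (h : X) (f f' : X → M) : T e h (f - f') = T e h f - T e h f' := by
  funext m; simp [T, smul_sub]

theorem transport (p e : X → G) (g h : X) (f : X → M) :
    T (p * sh g (p⁻¹ * e)) h (T p g f) = T p g (T e (g * h * g⁻¹) f) := by
  funext m
  simp only [T, sh, Pi.mul_apply, Pi.inv_apply, smul_smul]
  have h1 : g * h * g⁻¹ * (g * m) = g * (h * m) := by group
  rw [h1]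
  congr 1
  group

/-- Functions `f` such that all `f - T e h f` lie in `B`. -/
def V (B : AddSubgroup (X → M)) (e : X → G) : AddSubgroup (X → M) where
  carrier := {f | ∀ h, f - T e h f ∈ B}
  zero_mem' := by intro h; simp [T_zero]
  add_mem' := by
    intro a b ha hb h
    rw [T_add]
    have := B.add_mem (ha h) (hb h)
    have e1 : a + b - (T e h a + T e h b) = (a - T e h a) + (b - T e h b) := by abel
    rw [e1]; exact this
  neg_mem' := by
    intro a ha h
    rw [T_neg]
    have := B.neg_mem (ha h)
    have e1 : -a - -T e h a = -(a - T e h a) := by abel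
    rw [e1]; exact this

theorem mem_V {B : AddSubgroup (X → M)} {e : X → G} {f : X → M} :
    f ∈ V B e ↔ ∀ h, f - T e h f ∈ B := Iff.rfl

theorem V_transport {B : AddSubgroup (X → M)} {p e : X → G} {g : X}
    (hB : ∀ f ∈ B, T p g f ∈ B) {f : X → M} (hf : f ∈ V B e) :
    T p g f ∈ V B (p * sh g (p⁻¹ * e)) := by
  intro h
  rw [transport, ← T_sub]
  exact hB _ (hf _)

/-- The span of the `V B e` with `e ∈ q * Q`. -/
def VV (B : AddSubgroup (X → M)) (Q : Subgroup (X → G)) (q : X → G) : AddSubgroup (X → M) :=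
  ⨆ e : {e : X → G // q⁻¹ * e ∈ Q}, V B e.1

theorem V_le_VV {B : AddSubgroup (X → M)} {Q : Subgroup (X → G)} {q e : X → G}
    (he : q⁻¹ * e ∈ Q) : V B e ≤ VV B Q q :=
  le_iSup (fun e : {e : X → G // q⁻¹ * e ∈ Q} => V B e.1) ⟨e, he⟩

/-- A filtration of functions by derivatives. -/
structure Filt (P : ℕ → Subgroup (X → G)) : Prop where
  anti : ∀ i, P (i + 1) ≤ P i
  der : ∀ i, ∀ y ∈ P i, ∀ g, y⁻¹ * sh g y ∈ P (i + 1)

variable {P : ℕ → Subgroup (X → G)}

theorem Filt.le (hP : Filt P) {i j : ℕ} (h : i ≤ j) : P j ≤ P i :=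
  antitone_nat_of_succ_le hP.anti h

theorem Filt.sh_mem (hP : Filt P) {i : ℕ} {y : X → G} (hy : y ∈ P i) (g : X) : sh g y ∈ P i := by
  have h1 := hP.anti i (hP.der i y hy g)
  have h2 := (P i).mul_mem hy h1
  simpa using h2

/-- the key coset computation -/
theorem Filt.coset (hP : Filt P) {i : ℕ} {p e : X → G} (h : p⁻¹ * e ∈ P i) (g : X) :
    e⁻¹ * (p * sh g (p⁻¹ * e)) ∈ P (i + 1) := by
  have h1 := hP.der i _ h g
  have h2 : (p⁻¹ * e)⁻¹ * sh g (p⁻¹ * e) = e⁻¹ * (p * sh g (p⁻¹ * e)) := by group
  rw [h2] at h1; exact h1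

/-- `T p g` preserves `VV B (P (i+1)) q` as soon as `p⁻¹ q ∈ P i`. -/
theorem Filt.VV_stable (hP : Filt P) {B : AddSubgroup (X → M)} {i : ℕ} {p q : X → G}
    (hpq : p⁻¹ * q ∈ P i) (g : X) (hB : ∀ f ∈ B, T p g f ∈ B) {f : X → M}
    (hf : f ∈ VV B (P (i + 1)) q) : T p g f ∈ VV B (P (i + 1)) q := by
  unfold VV at hf
  induction hf using AddSubgroup.iSup_induction' with
  | hp e f hf =>
    have h1 := V_transport (p := p) (g := g) hB hf
    have h2 : p⁻¹ * e.1 ∈ P i := by
      have := (P i).mul_mem hpq (hP.anti i e.2)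
      simpa [mul_assoc] using this
    have h3 := hP.coset h2 g
    have h4 : q⁻¹ * (p * sh g (p⁻¹ * e.1)) ∈ P (i + 1) := by
      have := (P (i + 1)).mul_mem e.2 h3
      simpa [mul_assoc] using this
    exact V_le_VV h4 h1
  | h1 => rw [T_zero]; exact AddSubgroup.zero_mem _
  | hadd x y _ _ hx hy => rw [T_add]; exact AddSubgroup.add_mem _ hx hy

/-- the garbage conditions -/
structure Good (P : ℕ → Subgroup (X → G)) (B : AddSubgroup (X → M)) (i : ℕ) (q : X → G)
    (U : Set (X → M)) : Prop where
  add : ∀ u ∈ U, ∀ b ∈ B, u + b ∈ U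
  move : ∀ p : X → G, q⁻¹ * p ∈ P i → ∀ (g : X) (κ : M), ∀ u ∈ U,
    u - T p g u + T p g (fun _ => κ) ∈ U
  win : ∀ u ∈ U, Win (G := G) u

theorem PET (hP : Filt P) {D : ℕ} (htriv : ∀ y ∈ P D, ∀ (m : X) (c : M), y m • c = c)
    (B : AddSubgroup (X → M)) (hB : ∀ p ∈ P 0, ∀ g, ∀ f ∈ B, T p g f ∈ B) (j : ℕ) :
    ∀ i, i + j = D → ∀ q ∈ P 0, ∀ U : Set (X → M), Good P B i q U →
      ∀ Φ ∈ VV B (P i) q, ∀ u ∈ U, Win (G := G) (Φ + u) := by
  induction j with
  | zero =>
    intro i hi q hq U hU Φ hΦ u hu
    have hiD : i = D := by simpa using hi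
    subst hiD
    have hΦ' : Φ ∈ V B q := by
      have hle : VV B (P i) q ≤ V B q := by
        apply iSup_le
        rintro ⟨e, he⟩ f hf h
        have h1 := hf h
        have h2 : T e h f = T q h f := by
          funext m
          simp only [T]
          have key : ∀ (m : X) (c : M), (e m) • c = q m • c := by
            intro m c
            have := htriv _ he m c
            simp only [Pi.mul_apply, Pi.inv_apply] at this
            rw [mul_smul] at this
            calc e m • c = q m • ((q m)⁻¹ • e m • c) := by rw [smul_inv_smul]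
              _ = q m • c := by rw [this]
          have key2 : ∀ (m : X) (c : M), (e m)⁻¹ • c = (q m)⁻¹ • c := by
            intro m c
            rw [inv_smul_eq_iff, key, smul_inv_smul]
          rw [mul_smul, mul_smul, key2, key]
        rw [h2] at h1
        exact h1
      exact hle hΦ
    refine Win.step _ q (fun g κ => ?_)
    have h1 : Φ + u - T q g (Φ + u) + T q g (fun _ => κ)
        = (u - T q g u + T q g (fun _ => κ)) + (Φ - T q g Φ) := by
      rw [T_add]; abel
    rw [h1]
    apply hU.win
    apply hU.add _ _ _ (hΦ' g)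
    apply hU.move q _ g κ u hu
    simp
  | succ j IH =>
    intro i hi q hq U hU Φ hΦ u hu
    have hi' : i + 1 + j = D := by omega
    -- adding one class keeps goodness
    have step : ∀ U : Set (X → M), Good P B i q U → ∀ p : X → G, q⁻¹ * p ∈ P i →
        Good P B i q {f | ∃ φ ∈ VV B (P (i + 1)) p, ∃ u ∈ U, f = φ + u} := by
      intro U hU p hp
      have hp0 : p ∈ P 0 := by
        have := (P 0).mul_mem hq (hP.le (Nat.zero_le i) hp)
        simpa using this
      refine ⟨?_, ?_, ?_⟩
      · rintro _ ⟨φ, hφ, u, hu, rfl⟩ b hb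
        exact ⟨φ, hφ, u + b, hU.add _ hu _ hb, by abel⟩
      · rintro r hr g κ _ ⟨φ, hφ, u, hu, rfl⟩
        have hr0 : r ∈ P 0 := by
          have := (P 0).mul_mem hq (hP.le (Nat.zero_le i) hr)
          simpa using this
        refine ⟨φ - T r g φ, ?_, _, hU.move r hr g κ u hu, ?_⟩
        · apply AddSubgroup.sub_mem _ hφ
          apply hP.VV_stable _ g (hB r hr0 g) hφ
          have := (P i).mul_mem ((P i).inv_mem hr) hp
          simpa [mul_assoc] using this
        · rw [T_add]; abel
      · rintro _ ⟨φ, hφ, u, hu, rfl⟩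
        apply IH (i + 1) hi' p hp0 U _ φ hφ u hu
        refine ⟨hU.add, ?_, hU.win⟩
        intro r hr g κ u hu
        apply hU.move r _ g κ u hu
        have := (P i).mul_mem hp (hP.anti i hr)
        simpa [mul_assoc] using this
    have main : ∀ Φ ∈ VV B (P i) q, ∀ U : Set (X → M), Good P B i q U →
        ∃ U' : Set (X → M), Good P B i q U' ∧ ∀ u ∈ U, Φ + u ∈ U' := by
      intro Φ hΦ
      unfold VV at hΦ
      induction hΦ using AddSubgroup.iSup_induction' with
      | hp e f hf =>
        intro U hU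
        refine ⟨_, step U hU e.1 e.2, fun u hu => ⟨f, ?_, u, hu, rfl⟩⟩
        exact V_le_VV (by simp) hf
      | h1 => exact fun U hU => ⟨U, hU, fun u hu => by simpa using hu⟩
      | hadd x y _ _ hx hy =>
        intro U hU
        obtain ⟨U1, hU1, h1⟩ := hy U hU
        obtain ⟨U2, hU2, h2⟩ := hx U1 hU1
        exact ⟨U2, hU2, fun u hu => by rw [add_assoc]; exact h2 _ (h1 _ hu)⟩
    obtain ⟨U', hU', h⟩ := main Φ hΦ U hU
    exact hU'.win _ (h u hu)

/-- Level zero. -/
theorem level_zero (hP : Filt P) {D : ℕ} (htriv : ∀ y ∈ P D, ∀ (m : X) (c : M), y m • c = c)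
    (j : ℕ) : ∀ i, i + j = D → ∀ Φ ∈ VV (⊥ : AddSubgroup (X → M)) (P i) 1, Win (G := G) Φ := by
  induction j with
  | zero =>
    intro i hi Φ hΦ
    have hiD : i = D := by simpa using hi
    subst hiD
    have hconst : ∀ m, Φ m = Φ 1 := by
      unfold VV at hΦ
      induction hΦ using AddSubgroup.iSup_induction' with
      | hp e f hf =>
        intro m
        have h1 := hf (m⁻¹)
        have h2 : f = T e.1 m⁻¹ f := by
          rw [AddSubgroup.mem_bot, sub_eq_zero] at h1; exact h1
        have he : e.1 ∈ P i := by simpa using e.2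
        have h3 := congrFun h2 m
        simp only [T, inv_mul_cancel, mul_smul] at h3
        rw [htriv _ he] at h3
        rw [h3]
        rw [inv_smul_eq_iff, htriv _ he]
      | h1 => simp
      | hadd x y _ _ hx hy => intro m; simp [hx m, hy m]
    have : Φ = fun _ => Φ 1 := funext hconst
    rw [this]
    exact Win.const _
  | succ j IH =>
    intro i hi Φ hΦ
    have hgood : Good P (⊥ : AddSubgroup (X → M)) i 1
        (VV (⊥ : AddSubgroup (X → M)) (P (i + 1)) 1 : Set (X → M)) := by
      refine ⟨?_, ?_, ?_⟩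
      · intro u hu b hb
        rw [AddSubgroup.mem_bot] at hb
        simpa [hb] using hu
      · intro p hp g κ u hu
        have hp' : p ∈ P i := by simpa using hp
        apply AddSubgroup.add_mem
        · apply AddSubgroup.sub_mem _ hu
          apply hP.VV_stable _ g _ hu
          · simpa using hp'
          · intro f hf
            rw [AddSubgroup.mem_bot] at hf
            rw [hf, T_zero]; exact AddSubgroup.zero_mem _
        · have hκ : (fun _ => κ : X → M) ∈ VV (⊥ : AddSubgroup (X → M)) (P (i + 1)) 1 := by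
            apply V_le_VV (e := (1 : X → G)) (by simp)
            intro h
            rw [AddSubgroup.mem_bot]
            funext m
            simp [T]
          apply hP.VV_stable _ g _ hκ
          · simpa using hp'
          · intro f hf
            rw [AddSubgroup.mem_bot] at hf
            rw [hf, T_zero]; exact AddSubgroup.zero_mem _
      · intro u hu
        exact IH (i + 1) (by omega) u hu
    have := PET hP htriv (⊥ : AddSubgroup (X → M)) (by
      intro p _ g f hf
      rw [AddSubgroup.mem_bot] at hf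
      rw [hf, T_zero]; exact AddSubgroup.zero_mem _) (j + 1) i hi 1 (one_mem _) _ hgood Φ hΦ 0
      (AddSubgroup.zero_mem _)
    simpa using this

/-- Level one: the functions `f` for which all `f - T e h f` lie in the span of level zero are
winning. -/
theorem level_one (hP : Filt P) {D : ℕ} (htriv : ∀ y ∈ P D, ∀ (m : X) (c : M), y m • c = c)
    (Φ : X → M) (hΦ : Φ ∈ VV (VV (⊥ : AddSubgroup (X → M)) (P 0) 1) (P 0) 1) :
    Win (G := G) Φ := by
  have hstab : ∀ p ∈ P 0, ∀ (g : X), ∀ f ∈ VV (⊥ : AddSubgroup (X → M)) (P 0) 1,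
      T p g f ∈ VV (⊥ : AddSubgroup (X → M)) (P 0) 1 := by
    intro p hp g f hf
    unfold VV at hf
    induction hf using AddSubgroup.iSup_induction' with
    | hp e f hf =>
      have h1 := V_transport (p := p) (g := g) (B := (⊥ : AddSubgroup (X → M))) (by
        intro f hf
        rw [AddSubgroup.mem_bot] at hf
        rw [hf, T_zero]; exact AddSubgroup.zero_mem _) hf
      have he : e.1 ∈ P 0 := by simpa using e.2
      refine V_le_VV ?_ h1
      have h2 : p⁻¹ * e.1 ∈ P 0 := (P 0).mul_mem ((P 0).inv_mem hp) he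
      have h3 := (P 0).mul_mem hp (hP.sh_mem h2 g)
      simpa using h3
    | h1 => rw [T_zero]; exact AddSubgroup.zero_mem _
    | hadd x y _ _ hx hy => rw [T_add]; exact AddSubgroup.add_mem _ hx hy
  have hconst : ∀ κ : M, (fun _ => κ : X → M) ∈ VV (⊥ : AddSubgroup (X → M)) (P 0) 1 := by
    intro κ
    apply V_le_VV (e := (1 : X → G)) (by simp)
    intro h
    rw [AddSubgroup.mem_bot]
    funext m
    simp [T]
  have hgood : Good P (VV (⊥ : AddSubgroup (X → M)) (P 0) 1) 0 1
      (VV (⊥ : AddSubgroup (X → M)) (P 0) 1 : Set (X → M)) := by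
    refine ⟨fun u hu b hb => AddSubgroup.add_mem _ hu hb, ?_, ?_⟩
    · intro p hp g κ u hu
      have hp' : p ∈ P 0 := by simpa using hp
      exact AddSubgroup.add_mem _ (AddSubgroup.sub_mem _ hu (hstab p hp' g u hu))
        (hstab p hp' g _ (hconst κ))
    · intro u hu
      exact level_zero hP htriv D 0 (by simp) u hu
  have := PET hP htriv _ hstab D 0 (by simp) 1 (one_mem _) _ hgood Φ hΦ 0 (AddSubgroup.zero_mem _)
  simpa using this

end game

end Pool.Agent.MP349281
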