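import Pool.Agent.Lib.MP_349281_al.PET

set_option autoImplicit false

/-!
# The filtration of polynomial maps `N^k → N`
-/

namespace Pool.Agent.MP349281

open Subgroup
open scoped commutatorElement

section lcs

variable {G : Type*} [Group G]

theorem three_subgroups_le {H₁ H₂ H₃ K : Subgroup G} [K.Normal] (h1 : ⁅⁅H₂, H₃⁆, H₁⁆ ≤ K)
    (h2 : ⁅⁅H₃, H₁⁆, H₂⁆ ≤ K) : ⁅⁅H₁, H₂⁆, H₃⁆ ≤ K := by
  have key : ∀ H : Subgroup G, H ≤ K ↔ H.map (QuotientGroup.mk' K) = ⊥ := by
    intro H
    rw [Subgroup.map_eq_bot_iff, QuotientGroup.ker_mk']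
  rw [key] at h1 h2 ⊢
  simp only [Subgroup.map_commutator] at h1 h2 ⊢
  exact Subgroup.commutator_commutator_eq_bot_of_rotate h1 h2

theorem lcs_commutator (S : Subgroup G) [S.Normal] (j : ℕ) :
    ∀ i, ⁅S.lowerCentralSeries i, S.lowerCentralSeries j⁆ ≤ S.lowerCentralSeries (i + j + 1) := by
  induction j with
  | zero => intro i; simp
  | succ j IH =>
    intro i
    rw [Subgroup.commutator_comm, Subgroup.lowerCentralSeries_succ S j]
    apply three_subgroups_le
    · rw [Subgroup.commutator_comm S]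
      have := IH (i + 1)
      rw [Subgroup.lowerCentralSeries_succ] at this
      have e : i + 1 + j + 1 = i + (j + 1) + 1 := by ring
      rw [e] at this
      exact this
    · have h1 := IH i
      have h2 : ⁅⁅S.lowerCentralSeries i, S.lowerCentralSeries j⁆, S⁆
          ≤ ⁅S.lowerCentralSeries (i + j + 1), S⁆ := Subgroup.commutator_mono h1 le_rfl
      exact h2

end lcs

section poly

variable {G : Type*} [Group G] (N : Subgroup G) [N.Normal] (k : ℕ)

/-- the `w`-th constants -/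
def LL (w : ℕ) : Subgroup G := N.lowerCentralSeries ((w - 1) / 2)

instance (w : ℕ) : (LL N w).Normal := by unfold LL; infer_instance

theorem LL_anti {a b : ℕ} (h : a ≤ b) : LL N b ≤ LL N a :=
  N.lowerCentralSeries_antitone (by omega)

theorem LL_comm {a b : ℕ} (ha : 1 ≤ a) (hb : 1 ≤ b) : ⁅LL N a, LL N b⁆ ≤ LL N (a + b) :=
  (lcs_commutator N _ _).trans (N.lowerCentralSeries_antitone (by omega))

/-- The filtration. -/
def Q (w : ℕ) : Subgroup ((Fin k → N) → G) :=
  closure ({f | ∃ x ∈ LL N w, f = fun _ => x} ∪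
    {f | w ≤ 1 ∧ ∃ (i : Fin k) (γ : G), f = fun m => γ * (m i : G) * γ⁻¹} ∪
    {f | ∃ a : Fin w, ∃ b : Fin w, 1 ≤ a.1 ∧ 1 ≤ b.1 ∧ a.1 + b.1 = w ∧
      ∃ u ∈ Q a.1, ∃ v ∈ Q b.1, f = ⁅u, v⁆})
termination_by w
decreasing_by
  · exact a.2
  · exact b.2

variable {N k}

theorem Q_const {w : ℕ} {x : G} (hx : x ∈ LL N w) : (fun _ => x : (Fin k → N) → G) ∈ Q N k w := by
  unfold Q
  exact subset_closure (Or.inl (Or.inl ⟨x, hx, rfl⟩))

theorem Q_coord (i : Fin k) (γ : G) :
    (fun m => γ * (m i : G) * γ⁻¹ : (Fin k → N) → G) ∈ Q N k 1 := by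
  unfold Q
  exact subset_closure (Or.inl (Or.inr ⟨le_rfl, i, γ, rfl⟩))

theorem Q_comm {a b : ℕ} (ha : 1 ≤ a) (hb : 1 ≤ b) {u v : (Fin k → N) → G} (hu : u ∈ Q N k a)
    (hv : v ∈ Q N k b) : ⁅u, v⁆ ∈ Q N k (a + b) := by
  rw [Q]
  exact subset_closure (Or.inr ⟨⟨a, by omega⟩, ⟨b, by omega⟩, ha, hb, rfl, u, hu, v, hv, rfl⟩)

theorem Q_le {w : ℕ} {S : Subgroup ((Fin k → N) → G)}
    (h1 : ∀ x ∈ LL N w, (fun _ => x : (Fin k → N) → G) ∈ S)
    (h2 : w ≤ 1 → ∀ (i : Fin k) (γ : G), (fun m => γ * (m i : G) * γ⁻¹ : (Fin k → N) → G) ∈ S)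
    (h3 : ∀ a b, a < w → b < w → 1 ≤ a → 1 ≤ b → a + b = w → ∀ u ∈ Q N k a, ∀ v ∈ Q N k b,
      ⁅u, v⁆ ∈ S) : Q N k w ≤ S := by
  rw [Q, closure_le]
  rintro f ((⟨x, hx, rfl⟩ | ⟨hw, i, γ, rfl⟩) | ⟨a, b, ha, hb, hab, u, hu, v, hv, rfl⟩)
  · exact h1 x hx
  · exact h2 hw i γ
  · exact h3 a b a.2 b.2 ha hb hab u hu v hv

theorem Q_anti (w : ℕ) : 1 ≤ w → Q N k (w + 1) ≤ Q N k w := by
  induction w using Nat.strong_induction_on with
  | _ w IH =>
  intro hw
  apply Q_le
  · intro x hx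
    exact Q_const (LL_anti N (Nat.le_succ w) hx)
  · intro h; omega
  · intro a b ha hb ha1 hb1 hab u hu v hv
    rcases Nat.lt_or_ge 1 a with h | h
    · obtain ⟨a', rfl⟩ : ∃ a', a = a' + 1 := ⟨a - 1, by omega⟩
      have := Q_comm (by omega) hb1 (IH a' (by omega) (by omega) hu) hv
      have e : a' + b = w := by omega
      rwa [e] at this
    · rcases Nat.lt_or_ge 1 b with h' | h'
      · obtain ⟨b', rfl⟩ : ∃ b', b = b' + 1 := ⟨b - 1, by omega⟩
        have := Q_comm ha1 (by omega) hu (IH b' (by omega) (by omega) hv)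
        have e : a + b' = w := by omega
        rwa [e] at this
      · have ea : a = 1 := by omega
        have eb : b = 1 := by omega
        have ew : w = 1 := by omega
        subst ea; subst eb; subst ew
        have h1 := (Q N k 1).mul_mem ((Q N k 1).mul_mem ((Q N k 1).mul_mem hu hv)
          ((Q N k 1).inv_mem hu)) ((Q N k 1).inv_mem hv)
        exact h1

theorem Q_anti' {a b : ℕ} (ha : 1 ≤ a) (h : a ≤ b) : Q N k b ≤ Q N k a := by
  induction b, h using Nat.le_induction with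
  | base => exact le_rfl
  | succ b hb IH => exact (Q_anti b (by omega)).trans IH

theorem Q_conj {w : ℕ} (hw : 1 ≤ w) {v z : (Fin k → N) → G} (hv : v ∈ Q N k 1)
    (hz : z ∈ Q N k w) : v * z * v⁻¹ ∈ Q N k w := by
  have h1 := Q_anti' (by omega) (by omega : w ≤ 1 + w) (Q_comm le_rfl hw hv hz)
  have h2 := (Q N k w).mul_mem h1 hz
  have h3 : ⁅v, z⁆ * z = v * z * v⁻¹ := by simp [commutatorElement_def]
  rwa [h3] at h2

theorem Q_conj' {w : ℕ} (hw : 1 ≤ w) {v z : (Fin k → N) → G} (hv : v ∈ Q N k 1)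
    (hz : z ∈ Q N k w) : v⁻¹ * z * v ∈ Q N k w := by
  simpa using Q_conj hw ((Q N k 1).inv_mem hv) hz

theorem sh_mul {X : Type*} [Group X] (g : X) (a b : X → G) : sh g (a * b) = sh g a * sh g b := rfl

theorem sh_inv {X : Type*} [Group X] (g : X) (a : X → G) : sh g a⁻¹ = (sh g a)⁻¹ := rfl

theorem Q_der (w : ℕ) : 1 ≤ w → ∀ y ∈ Q N k w, ∀ g, y⁻¹ * sh g y ∈ Q N k (w + 1) := by
  induction w using Nat.strong_induction_on with
  | _ w IH =>
  intro hw
  -- the subgroup of elements of `Q w` with all derivatives in `Q (w+1)`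
  let S : Subgroup ((Fin k → N) → G) :=
    { carrier := {y | y ∈ Q N k w ∧ ∀ g, y⁻¹ * sh g y ∈ Q N k (w + 1)}
      one_mem' := ⟨one_mem _, fun g => by
        have : (1 : (Fin k → N) → G)⁻¹ * sh g 1 = 1 := by
          funext m; simp [sh]
        rw [this]; exact one_mem _⟩
      mul_mem' := by
        rintro a b ⟨ha, ha'⟩ ⟨hb, hb'⟩
        refine ⟨mul_mem ha hb, fun g => ?_⟩
        have h1 : (a * b)⁻¹ * sh g (a * b)
            = (b⁻¹ * (a⁻¹ * sh g a) * b) * (b⁻¹ * sh g b) := by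
          rw [sh_mul]; group
        rw [h1]
        exact mul_mem (Q_conj' (by omega) (Q_anti' le_rfl hw hb) (ha' g)) (hb' g)
      inv_mem' := by
        rintro a ⟨ha, ha'⟩
        refine ⟨inv_mem ha, fun g => ?_⟩
        have h1 : a⁻¹⁻¹ * sh g a⁻¹ = a * (a⁻¹ * sh g a)⁻¹ * a⁻¹ := by
          rw [sh_inv]; group
        rw [h1]
        exact Q_conj (by omega) (Q_anti' le_rfl hw ha) (inv_mem (ha' g)) }
  have hS : Q N k w ≤ S := by
    apply Q_le
    · intro x hx
      refine ⟨Q_const hx, fun g => ?_⟩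
      have : (fun _ => x : (Fin k → N) → G)⁻¹ * sh g (fun _ => x) = 1 := by
        funext m; simp [sh]
      rw [this]; exact one_mem _
    · intro hw1 i γ
      have ew : w = 1 := by omega
      subst ew
      refine ⟨Q_coord i γ, fun g => ?_⟩
      have hc : (fun _ => γ * (g i : G) * γ⁻¹ : (Fin k → N) → G) ∈ Q N k 2 := by
        apply Q_const
        exact (inferInstance : N.Normal).conj_mem _ (g i).2 γ
      have h1 := Q_conj' (by omega) (Q_coord (N := N) i γ) hc
      have h2 : (fun m => γ * (m i : G) * γ⁻¹ : (Fin k → N) → G)⁻¹ *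
          sh g (fun m => γ * (m i : G) * γ⁻¹)
          = (fun m => γ * (m i : G) * γ⁻¹ : (Fin k → N) → G)⁻¹ *
            (fun _ => γ * (g i : G) * γ⁻¹) * (fun m => γ * (m i : G) * γ⁻¹) := by
        funext m
        simp only [sh, Pi.mul_apply, Pi.inv_apply, Subgroup.coe_mul]
        group
      rw [h2]; exact h1
    · intro a b ha hb ha1 hb1 hab u hu v hv
      refine ⟨?_, fun g => ?_⟩
      · have := Q_comm ha1 hb1 hu hv
        rwa [hab] at this
      · have hu' := IH a ha ha1 u hu g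
        have hv' := IH b hb hb1 v hv g
        set u' := u⁻¹ * sh g u with hu'def
        set v' := v⁻¹ * sh g v with hv'def
        have eu : sh g u = u * u' := by rw [hu'def]; group
        have ev : sh g v = v * v' := by rw [hv'def]; group
        have hu1 : u ∈ Q N k 1 := Q_anti' le_rfl ha1 hu
        have hv1 : v ∈ Q N k 1 := Q_anti' le_rfl hb1 hv
        have e1 : sh g ⁅u, v⁆ = ⁅u * u', v * v'⁆ := by
          rw [← eu, ← ev]; rfl
        have e2 : ⁅u * u', v * v'⁆ = (u * ⁅u', v * v'⁆ * u⁻¹) * (⁅u, v⁆ * (v * ⁅u, v'⁆ * v⁻¹)) := by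
          simp only [commutatorElement_def]; group
        rw [e1, e2]
        have hvv' : v * v' ∈ Q N k b := mul_mem hv (Q_anti b hb1 hv')
        have t1 : ⁅u', v * v'⁆ ∈ Q N k (w + 1) := by
          have := Q_comm (by omega) hb1 hu' hvv'
          have e : a + 1 + b = w + 1 := by omega
          rwa [e] at this
        have t2 : ⁅u, v'⁆ ∈ Q N k (w + 1) := by
          have := Q_comm ha1 (by omega) hu hv'
          have e : a + (b + 1) = w + 1 := by omega
          rwa [e] at this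
        have t1' := Q_conj (by omega) hu1 t1
        have t2' := Q_conj (by omega) hv1 t2
        have hc1 : ⁅u, v⁆ ∈ Q N k 1 := by
          apply Q_anti' le_rfl hw
          have := Q_comm ha1 hb1 hu hv
          rwa [hab] at this
        have t3 := Q_conj' (by omega) hc1 t1'
        have e3 : ⁅u, v⁆⁻¹ * (u * ⁅u', v * v'⁆ * u⁻¹ * (⁅u, v⁆ * (v * ⁅u, v'⁆ * v⁻¹)))
            = (⁅u, v⁆⁻¹ * (u * ⁅u', v * v'⁆ * u⁻¹) * ⁅u, v⁆) * (v * ⁅u, v'⁆ * v⁻¹) := by
          group
        rw [e3]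
        exact mul_mem t3 t2'
  intro y hy g
  exact (hS hy).2 g

theorem Q_values (w : ℕ) : 1 ≤ w → ∀ y ∈ Q N k w, ∀ m, y m ∈ LL N w := by
  induction w using Nat.strong_induction_on with
  | _ w IH =>
  intro hw
  let S : Subgroup ((Fin k → N) → G) :=
    { carrier := {y | ∀ m, y m ∈ LL N w}
      one_mem' := fun m => one_mem _
      mul_mem' := fun {a b} ha hb m => mul_mem (ha m) (hb m)
      inv_mem' := fun {a} ha m => inv_mem (ha m) }
  have hS : Q N k w ≤ S := by
    apply Q_le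
    · intro x hx m; exact hx
    · intro hw1 i γ m
      have ew : w = 1 := by omega
      subst ew
      exact (inferInstance : N.Normal).conj_mem _ (m i).2 γ
    · intro a b ha hb ha1 hb1 hab u hu v hv m
      have h1 := IH a ha ha1 u hu m
      have h2 := IH b hb hb1 v hv m
      have h3 := LL_comm N ha1 hb1 (Subgroup.commutator_mem_commutator h1 h2)
      rw [hab] at h3
      exact h3
  exact fun y hy => hS hy

/-- The filtration starting at index `0`. -/
theorem filt_Q : Filt (fun i => Q N k (i + 1)) where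
  anti i := Q_anti (i + 1) (by omega)
  der i y hy g := Q_der (i + 1) (by omega) y hy g

end poly

end Pool.Agent.MP349281
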